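import Pool.Agent.Lib.MP_0b126a_co.Ext

open Finset
open scoped Classical Pointwise

namespace Pool.Agent.Lib.MP_0b126a_co

variable {G Q : Type*} [AddCommGroup G] [AddCommGroup Q]

lemma card_HF [Fintype Q] (H : AddSubgroup Q) : (HF H).card = Nat.card H := by
  rw [Nat.card_eq_fintype_card, Fintype.card_subtype]
  rfl

lemma addOrderOf_le_HF [Fintype Q] {H : AddSubgroup Q} {d : Q} (hd : d ∈ H) :
    addOrderOf d ≤ (HF H).card := by
  rw [card_HF, ← Nat.card_zmultiples]
  exact Nat.le_of_dvd Nat.card_pos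
    (AddSubgroup.card_dvd_of_le ((AddSubgroup.zmultiples_le_of_mem hd)))

lemma cov_of_lift [Finite Q] {φ : G →+ Q} {A : Finset G} {P : Finset Q}
    (hP : ∀ v ∈ P, ∃ x ∈ A, φ x = v) {w : ℕ} {L : AddSubgroup Q} (hL : L ≠ ⊥) {W : Finset Q}
    (hW : W ⊆ P) {q : Q} (h : ∀ z ∈ L, ∃ B ⊆ W, ∑ x ∈ B, x = q + z)
    (hc : 2 ^ W.card ≤ Nat.card L ^ w) : Cov φ A w := by
  have hP' : ∀ v : Q, ∃ x : G, v ∈ P → (x ∈ A ∧ φ x = v) := by
    intro v
    by_cases hv : v ∈ P
    · obtain ⟨x, hx, hxv⟩ := hP v hv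
      exact ⟨x, fun _ => ⟨hx, hxv⟩⟩
    · exact ⟨0, fun h => absurd h hv⟩
  choose f hf using hP'
  refine ⟨L, hL, W.image f, ?_, ⟨q, ?_⟩, ?_⟩
  · intro x hx
    obtain ⟨v, hv, rfl⟩ := mem_image.1 hx
    exact (hf v (hW hv)).1
  · intro z hz
    obtain ⟨B, hB, hBs⟩ := h z hz
    refine ⟨B.image f, image_subset_image hB, ?_⟩
    have hinj : ∀ x ∈ B, ∀ y ∈ B, f x = f y → x = y := by
      intro x hx y hy hxy
      rw [← (hf x (hW (hB hx))).2, ← (hf y (hW (hB hy))).2, hxy]
    rw [sum_image hinj, map_sum, ← hBs]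
    exact sum_congr rfl fun x hx => (hf x (hW (hB hx))).2
  · exact le_trans (Nat.pow_le_pow_right (by norm_num) card_image_le) hc

lemma star_sub_add [Fintype Q] {T : Finset Q} {H : AddSubgroup Q} : star T ⊆ HF H + star T := by
  intro z hz
  exact mem_add.2 ⟨0, by rw [mem_HF]; exact H.zero_mem, z, hz, by simp⟩

lemma bad_missing [Fintype Q] {T : Finset Q} {H : AddSubgroup Q}
    (hbad : (HF H + star T).card < (HF H).card + ((star T).card - 1)) :
    ((HF H + star T) \ star T).card + 2 ≤ (HF H).card := by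
  have h1 := card_sdiff_of_subset (star_sub_add (T := T) (H := H))
  have h2 : 0 < (star T).card := card_pos.2 star_nonempty
  have h3 := card_le_card (star_sub_add (T := T) (H := H))
  omega

lemma coset_disj [Fintype Q] {H : AddSubgroup Q} {t : Q} (htH : t ∉ H) :
    Disjoint (HF H) ((HF H).image (· + t)) := by
  rw [disjoint_left]
  intro z hz hz'
  obtain ⟨y, hy, rfl⟩ := mem_image.1 hz'
  rw [mem_HF] at hz hy
  apply htH
  have := H.sub_mem hz hy
  simpa using this

lemma coset_sub [Fintype Q] {T : Finset Q} {H : AddSubgroup Q} {t : Q} (ht : t ∈ star T) :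
    (HF H).image (· + t) ⊆ HF H + star T := by
  intro z hz
  obtain ⟨y, hy, rfl⟩ := mem_image.1 hz
  exact mem_add.2 ⟨y, hy, t, ht, rfl⟩

lemma bad_large_aux [Fintype Q] {φ : G →+ Q} {A : Finset G} {T : Finset Q}
    (hT : ∀ v ∈ T, ∃ x ∈ A, φ x = v) {H : AddSubgroup Q} (c : Q)
    (hc : (HF H).card + 2 ≤ 2 * ((HF H).image (· + c) ∩ star T).card)
    (hH : 2 ^ 20 ≤ (HF H).card) : Cov φ A 116 := by
  set P1 := T.filter (fun x => x - c ∈ H) with hP1
  set P2 := T.filter (fun x => x - (-c) ∈ H) with hP2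
  have hsub : (HF H).image (· + c) ∩ star T ⊆ insert 0 (P1 ∪ P2.image Neg.neg) := by
    intro z hz
    rw [mem_inter, mem_star, mem_image] at hz
    obtain ⟨⟨y, hy, rfl⟩, hz⟩ := hz
    rw [mem_HF] at hy
    rw [mem_insert, mem_union]
    rcases hz with hz | hz | hz
    · exact Or.inl hz
    · right; left
      rw [hP1, mem_filter]
      exact ⟨hz, by simpa using hy⟩
    · right; right
      rw [mem_image]
      refine ⟨-(y + c), ?_, by simp⟩
      rw [hP2, mem_filter]
      refine ⟨hz, ?_⟩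
      have h1 : -(y + c) - -c = -y := by abel
      rw [h1]
      exact H.neg_mem hy
  have h1 := card_le_card hsub
  have h2 := card_insert_le (0 : Q) (P1 ∪ P2.image Neg.neg)
  have h3 := card_union_le P1 (P2.image Neg.neg)
  rw [card_image_of_injective _ neg_injective] at h3
  rcases Nat.le_total P2.card P1.card with h | h
  · obtain ⟨L, hL, W, hW, q, hcov, hcost⟩ := dense_cover H P1 c
      (fun x hx => (mem_filter.1 hx).2) (by rw [← card_HF]; exact hH)
      (by rw [← card_HF]; omega)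
    exact cov_of_lift (fun v hv => hT v (mem_filter.1 hv).1) hL hW hcov hcost
  · obtain ⟨L, hL, W, hW, q, hcov, hcost⟩ := dense_cover H P2 (-c)
      (fun x hx => (mem_filter.1 hx).2) (by rw [← card_HF]; exact hH)
      (by rw [← card_HF]; omega)
    exact cov_of_lift (fun v hv => hT v (mem_filter.1 hv).1) hL hW hcov hcost

lemma bad_large [Fintype Q] {φ : G →+ Q} {A : Finset G} {T : Finset Q}
    (hT : ∀ v ∈ T, ∃ x ∈ A, φ x = v) {H : AddSubgroup Q}
    (hbad : (HF H + star T).card < (HF H).card + ((star T).card - 1))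
    {t : Q} (ht : t ∈ star T) (htH : t ∉ H)
    (hH : 2 ^ 20 ≤ (HF H).card) : Cov φ A 116 := by
  have hm := bad_missing hbad
  have h0 : (HF H).image (· + (0 : Q)) = HF H := by simp
  have hd := coset_disj htH
  have hs1 : HF H \ star T ⊆ (HF H + star T) \ star T := by
    refine sdiff_subset_sdiff ?_ (Subset.refl _)
    have := coset_sub (T := T) (H := H) (t := 0) (mem_star.2 (Or.inl rfl))
    rwa [h0] at this
  have hs2 : (HF H).image (· + t) \ star T ⊆ (HF H + star T) \ star T :=
    sdiff_subset_sdiff (coset_sub ht) (Subset.refl _)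
  have h1 : (HF H \ star T).card + ((HF H).image (· + t) \ star T).card ≤
      ((HF H + star T) \ star T).card := by
    rw [← card_union_of_disjoint
      (disjoint_of_subset_left sdiff_subset (disjoint_of_subset_right sdiff_subset hd))]
    exact card_le_card (union_subset hs1 hs2)
  have h2 := Finset.card_sdiff_add_card_inter (HF H) (star T)
  have h3 := Finset.card_sdiff_add_card_inter ((HF H).image (· + t)) (star T)
  rw [card_shift] at h3
  rcases Nat.le_total (HF H \ star T).card ((HF H).image (· + t) \ star T).card with h | h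
  · exact bad_large_aux hT 0 (by rw [h0]; omega) hH
  · exact bad_large_aux hT t (by omega) hH

lemma good_elt [Fintype Q] {T : Finset Q} {H : AddSubgroup Q}
    (hbad : (HF H + star T).card < (HF H).card + ((star T).card - 1)) (F : Finset Q)
    (hF : (F.card + (HF H).card) * (HF H).card ≤ (star T).card) :
    ∃ z, ∀ h ∈ H, z + h ∈ star T ∧ z + h ∉ F := by
  have hm := bad_missing hbad
  set Mm := (HF H + star T) \ star T with hMm
  have hHpos : 0 < (HF H).card := by omega
  have h1 : ((Mm ∪ F) + HF H).card < (star T).card := by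
    calc ((Mm ∪ F) + HF H).card ≤ (Mm ∪ F).card * (HF H).card := card_add_le
      _ ≤ (Mm.card + F.card) * (HF H).card := Nat.mul_le_mul_right _ (card_union_le _ _)
      _ < (F.card + (HF H).card) * (HF H).card := Nat.mul_lt_mul_of_pos_right (by omega) hHpos
      _ ≤ _ := hF
  obtain ⟨z, hz, hzn⟩ := exists_mem_notMem_of_card_lt_card h1
  refine ⟨z, fun h hh => ?_⟩
  have h2 : ∀ y ∈ Mm ∪ F, z + h ≠ y := by
    intro y hy heq
    apply hzn
    refine mem_add.2 ⟨y, hy, -h, ?_, ?_⟩
    · rw [mem_HF]; exact H.neg_mem hh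
    · rw [← heq]; abel
  refine ⟨?_, fun hF => h2 _ (mem_union_right _ hF) rfl⟩
  by_contra hn
  refine h2 (z + h) (mem_union_left _ ?_) rfl
  rw [hMm, mem_sdiff]
  refine ⟨mem_add.2 ⟨h, by rw [mem_HF]; exact hh, z, hz, add_comm _ _⟩, hn⟩

lemma lift_star {φ : G →+ Q} {A W : Finset G} {T : Finset Q}
    (hT : ∀ v ∈ T, ∃ x ∈ A, φ x = v) {v : Q} (hv : v ∈ star T)
    (hF : v ∉ insert 0 (W.image φ ∪ (W.image φ).image Neg.neg)) :
    ∃ x ∈ A \ W, φ x = v ∨ φ x = -v := by
  rw [mem_insert, mem_union] at hF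
  push Not at hF
  obtain ⟨h0, h1, h2⟩ := hF
  rcases mem_star.1 hv with h | h | h
  · exact absurd h h0
  · obtain ⟨x, hx, hxv⟩ := hT _ h
    refine ⟨x, mem_sdiff.2 ⟨hx, fun hxW => h1 ?_⟩, Or.inl hxv⟩
    rw [← hxv]
    exact mem_image_of_mem _ hxW
  · obtain ⟨x, hx, hxv⟩ := hT _ h
    refine ⟨x, mem_sdiff.2 ⟨hx, fun hxW => h2 ?_⟩, Or.inr hxv⟩
    rw [mem_image]
    refine ⟨φ x, mem_image_of_mem _ hxW, ?_⟩
    rw [hxv, neg_neg]

lemma gadget_of_pair {φ : G →+ Q} {A W : Finset G} {T : Finset Q}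
    (hT : ∀ v ∈ T, ∃ x ∈ A, φ x = v) {a b d : Q} (ha : a ∈ star T) (hb : b ∈ star T)
    (haF : a ∉ insert 0 (W.image φ ∪ (W.image φ).image Neg.neg))
    (hbF : b ∉ insert 0 (W.image φ ∪ (W.image φ).image Neg.neg))
    (hab : a ≠ b) (hab' : a + b ≠ 0) (hd : a - b = d) :
    ∃ X Y : Finset G, X ⊆ A \ W ∧ Y ⊆ A \ W ∧
      (X ∪ Y).card ≤ 2 ∧ φ (∑ x ∈ X, x) = φ (∑ x ∈ Y, x) + d := by
  obtain ⟨x, hx, hxa⟩ := lift_star hT ha haF
  obtain ⟨y, hy, hyb⟩ := lift_star hT hb hbF
  have hxy : x ≠ y := by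
    rintro rfl
    rcases hxa with h1 | h1 <;> rcases hyb with h2 | h2
    · exact hab (by rw [← h1, ← h2])
    · apply hab'
      rw [← h1, h2]; simp
    · apply hab'
      rw [← h2, h1]; simp
    · apply hab
      rw [h1] at h2
      exact neg_injective h2
  obtain ⟨X, Y, hX, hY, hs⟩ := gadget (φ := φ) (a₁ := a) (a₂ := b) hxy (Or.inr hxa) (Or.inr hyb)
  have hsub : ({x, y} : Finset G) ⊆ A \ W := by
    intro z hz
    rw [mem_insert, mem_singleton] at hz
    rcases hz with rfl | rfl
    · exact hx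
    · exact hy
  refine ⟨X, Y, hX.trans hsub, hY.trans hsub, ?_, by rw [hs, hd]⟩
  exact (card_le_card (union_subset hX hY)).trans card_le_two

lemma bad_small [Fintype Q] {φ : G →+ Q} {A : Finset G} {T : Finset Q}
    (hT : ∀ v ∈ T, ∃ x ∈ A, φ x = v) {H : AddSubgroup Q}
    (hbad : (HF H + star T).card < (HF H).card + ((star T).card - 1))
    (hbig : 10 * (HF H).card ^ 2 ≤ (star T).card) {w : ℕ} (hw : 2 * (HF H).card ≤ w) :
    Cov φ A w := by
  have hm := bad_missing hbad
  have hH2 : 2 ≤ (HF H).card := by omega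
  have hFc : ∀ W : Finset G, (insert 0 (W.image φ ∪ (W.image φ).image Neg.neg)).card ≤
      2 * W.card + 1 := by
    intro W
    have h1 := card_insert_le (0 : Q) (W.image φ ∪ (W.image φ).image Neg.neg)
    have h2 := card_union_le (W.image φ) ((W.image φ).image Neg.neg)
    rw [card_image_of_injective _ neg_injective] at h2
    have h3 : (W.image φ).card ≤ W.card := card_image_le
    omega
  have hgood : ∀ F : Finset Q, F.card ≤ 4 * (HF H).card + 1 →
      ∃ z, ∀ h ∈ H, z + h ∈ star T ∧ z + h ∉ F := by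
    intro F hF
    refine good_elt hbad F ?_
    refine le_trans ?_ hbig
    nlinarith
  by_cases hA : ∃ h0 ∈ H, h0 + h0 ≠ 0
  · obtain ⟨d, hd, hdd⟩ := hA
    have hd0 : d ≠ 0 := by rintro rfl; simp at hdd
    have hord := addOrderOf_le_HF hd
    refine gadgets_cover hd0 w (by omega) ?_
    intro W _ hWc
    obtain ⟨z, hz⟩ := hgood (insert 0 (W.image φ ∪ (W.image φ).image Neg.neg))
      ((hFc W).trans (by omega))
    have key : ∀ h ∈ H, (z + h + d) + (z + h) ≠ 0 → ∃ X Y : Finset G, X ⊆ A \ W ∧ Y ⊆ A \ W ∧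
      (X ∪ Y).card ≤ 2 ∧ φ (∑ x ∈ X, x) = φ (∑ x ∈ Y, x) + d := by
      intro h hh hne
      have h1 := hz (h + d) (H.add_mem hh hd)
      rw [← add_assoc] at h1
      have h2 := hz h hh
      exact gadget_of_pair hT h1.1 h2.1 h1.2 h2.2 (by simpa using hd0) hne (by abel)
    by_cases h : (z + 0 + d) + (z + 0) = 0
    · refine key d hd fun h' => ?_
      apply hdd
      have : (z + d + d) + (z + d) = ((z + 0 + d) + (z + 0)) + (d + d) := by abel
      rw [this, h, zero_add] at h'
      exact h'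
    · exact key 0 H.zero_mem h
  · push Not at hA
    have hord2 : ∀ d : Q, d ≠ 0 → d + d = 0 → addOrderOf d = 2 := by
      intro d hd hdd
      apply addOrderOf_eq_prime _ hd
      rw [two_nsmul, hdd]
    by_cases hB : ∃ z d, d ∈ H ∧ d ≠ 0 ∧ (∀ h ∈ H, z + h ∈ star T ∧ z + h ∉ ({0} : Finset Q)) ∧
        (z + d) + z ≠ 0
    · obtain ⟨z, d, hd, hd0, hz, hne⟩ := hB
      have ho := hord2 d hd0 (hA d hd)
      refine gadgets_cover hd0 w (by omega) ?_
      intro W _ hWc
      have hW0 : W = ∅ := by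
        rw [← card_eq_zero]; omega
      subst hW0
      have h1 := hz d hd
      have h2 := hz 0 H.zero_mem
      rw [add_zero] at h2
      exact gadget_of_pair hT h1.1 h2.1 (by simpa using h1.2) (by simpa using h2.2)
        (by simpa using hd0) hne (by abel)
    · push Not at hB
      obtain ⟨d, hd, hd0⟩ : ∃ d ∈ H, d ≠ 0 := by
        by_contra hcon
        push Not at hcon
        have : HF H ⊆ {0} := by
          intro x hx
          rw [mem_HF] at hx
          rw [mem_singleton]
          exact hcon x hx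
        have := card_le_card this
        rw [card_singleton] at this
        omega
      obtain ⟨z1, hz1⟩ := hgood {0} (by rw [card_singleton]; omega)
      have hc3 : ({0, z1, -z1} : Finset Q).card ≤ 3 := card_le_three
      obtain ⟨z2, hz2⟩ := hgood {0, z1, -z1} (by omega)
      have e1 := hB z1 d hd hd0 hz1
      have e2 := hB z2 d hd hd0 (fun h hh => ⟨(hz2 h hh).1, fun hcon => (hz2 h hh).2 (by
        rw [mem_singleton] at hcon; rw [mem_insert]; exact Or.inl hcon)⟩)
      have hdd := hA d hd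
      have hz2' := hz2 0 H.zero_mem
      rw [add_zero] at hz2'
      have hz1' := hz1 0 H.zero_mem
      rw [add_zero] at hz1'
      have hn : z2 ≠ 0 ∧ z2 ≠ z1 ∧ z2 ≠ -z1 := by
        have := hz2'.2
        simpa only [mem_insert, mem_singleton, not_or] using this
      have hn1 : z1 ≠ 0 := by
        have := hz1'.2
        simpa only [mem_singleton] using this
      have hy0 : z1 + z2 ≠ 0 := by
        intro h
        apply hn.2.2
        rw [eq_neg_iff_add_eq_zero, add_comm]
        exact h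
      have hyy : (z1 + z2) + (z1 + z2) = 0 := by
        have : (z1 + z2) + (z1 + z2) = ((z1 + d) + z1) + ((z2 + d) + z2) - (d + d) := by abel
        rw [this, e1, e2, hdd]; simp
      have ho := hord2 _ hy0 hyy
      refine gadgets_cover hy0 w (by omega) ?_
      intro W _ hWc
      have hW0 : W = ∅ := by
        rw [← card_eq_zero]; omega
      subst hW0
      refine gadget_of_pair hT (a := z1) (b := -z2) hz1'.1 (star_neg _ hz2'.1) (by simpa using hn1)
        (by simpa using hn.1) ?_ ?_ (by abel)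
      · intro h
        apply hn.2.2
        rw [h, neg_neg]
      · intro h
        apply hn.2.1
        rw [← sub_eq_add_neg, sub_eq_zero] at h
        exact h.symm

lemma bad_multi [Fintype Q] {φ : G →+ Q} {A : Finset G} {T : Finset Q} {M : ℕ}
    (hT : ∀ v ∈ T, M ≤ (A.filter (fun x => φ x = v)).card) {H : AddSubgroup Q}
    (hbad : (HF H + star T).card < (HF H).card + ((star T).card - 1))
    {t : Q} (ht : t ∈ star T) (htH : t ∉ H)
    (hM : 2 * (star T).card ≤ M) {w : ℕ} (hw : 2 * (star T).card ≤ w) : Cov φ A w := by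
  have hm := bad_missing hbad
  have hspos : 0 < (star T).card := card_pos.2 star_nonempty
  have h0 : (HF H).image (· + (0 : Q)) = HF H := by simp
  have h2H : 2 * (HF H).card ≤ (HF H + star T).card := by
    have h3 : HF H ⊆ HF H + star T := by
      have := coset_sub (T := T) (H := H) (t := 0) (mem_star.2 (Or.inl rfl))
      rwa [h0] at this
    have h1 := card_le_card (union_subset h3 (coset_sub (T := T) (H := H) ht))
    rw [card_union_of_disjoint (coset_disj htH), card_shift] at h1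
    omega
  -- two elements in the same coset
  obtain ⟨a, ha, b, hb, hab, habH⟩ : ∃ a ∈ star T, ∃ b ∈ star T, a ≠ b ∧ a - b ∈ H := by
    by_contra hcon
    push Not at hcon
    have h1 : (HF H).card * (star T).card ≤ (HF H + star T).card := by
      rw [← card_product]
      refine card_le_card_of_injOn (fun p => p.1 + p.2) ?_ ?_
      · rintro ⟨x, y⟩ hp
        simp only [coe_product, Set.mem_prod, mem_coe] at hp
        have : x + y ∈ HF H + star T := add_mem_add hp.1 hp.2
        exact_mod_cast this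
      · rintro ⟨x, y⟩ hp ⟨x', y'⟩ hp' h
        simp only [coe_product, Set.mem_prod, mem_coe, mem_HF] at hp hp'
        simp only at h
        have hy : y = y' := by
          by_contra hne
          refine hcon y hp.2 y' hp'.2 hne ?_
          have : y - y' = x' - x := by
            rw [sub_eq_sub_iff_add_eq_add, add_comm y x, h]
          rw [this]
          exact H.sub_mem hp'.1 hp.1
        subst hy
        have hx : x = x' := add_right_cancel h
        rw [hx]
    obtain ⟨s, hs⟩ : ∃ s, (star T).card = s + 1 := ⟨(star T).card - 1, by omega⟩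
    obtain ⟨p, hp⟩ : ∃ p, (HF H).card = p + 1 := ⟨(HF H).card - 1, by omega⟩
    rw [hs, hp] at h1 hbad
    have h4 : (p + 1) * (s + 1) = p * s + p + s + 1 := by ring
    omega
  have hd0 : a - b ≠ 0 := sub_ne_zero.2 hab
  have hord := addOrderOf_le_HF habH
  -- an element of T
  have ht0 : t ≠ 0 := by
    rintro rfl
    exact htH H.zero_mem
  obtain ⟨t', ht'⟩ : ∃ t', t' ∈ T := by
    rcases mem_star.1 ht with h | h | h
    · exact absurd h ht0
    · exact ⟨_, h⟩
    · exact ⟨_, h⟩
  have hlift : ∀ v ∈ T, ∀ W : Finset G, W.card < M → ∃ x ∈ A \ W, φ x = v := by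
    intro v hv W hW
    obtain ⟨x, hx, hxW⟩ := exists_mem_notMem_of_card_lt_card (lt_of_lt_of_le hW (hT v hv))
    rw [mem_filter] at hx
    exact ⟨x, mem_sdiff.2 ⟨hx.1, hxW⟩, hx.2⟩
  have hlift' : ∀ v ∈ star T, ∀ W : Finset G, W.card < M →
      ∃ x ∈ A \ W, v = 0 ∨ φ x = v ∨ φ x = -v := by
    intro v hv W hW
    rcases mem_star.1 hv with h | h | h
    · obtain ⟨x, hx, _⟩ := hlift t' ht' W hW
      exact ⟨x, hx, Or.inl h⟩
    · obtain ⟨x, hx, hxv⟩ := hlift v h W hW
      exact ⟨x, hx, Or.inr (Or.inl hxv)⟩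
    · obtain ⟨x, hx, hxv⟩ := hlift _ h W hW
      exact ⟨x, hx, Or.inr (Or.inr hxv)⟩
  refine gadgets_cover hd0 w (by omega) ?_
  intro W _ hWc
  obtain ⟨x, hx, hxa⟩ := hlift' a ha W (by omega)
  obtain ⟨y, hy, hyb⟩ := hlift' b hb (insert x W) (by
    have := card_insert_le x W
    omega)
  rw [mem_sdiff, mem_insert] at hy
  push Not at hy
  obtain ⟨X, Y, hX, hY, hs⟩ := gadget (φ := φ) (a₁ := a) (a₂ := b) (Ne.symm hy.2.1) hxa hyb
  have hsub : ({x, y} : Finset G) ⊆ A \ W := by
    intro z hz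
    rw [mem_insert, mem_singleton] at hz
    rcases hz with rfl | rfl
    · exact hx
    · exact mem_sdiff.2 ⟨hy.1, hy.2.2⟩
  refine ⟨X, Y, hX.trans hsub, hY.trans hsub, ?_, hs⟩
  exact (card_le_card (union_subset hX hY)).trans card_le_two

lemma cov_of_mult [Finite Q] {φ : G →+ Q} {A : Finset G} {v : Q} (hv : v ≠ 0) {w : ℕ}
    (hw : 2 * addOrderOf v ≤ w)
    (hm : 2 * addOrderOf v ≤ (A.filter (fun x => φ x = v)).card) : Cov φ A w := by
  have ho : 0 < addOrderOf v := addOrderOf_pos v
  refine gadgets_cover hv w hw ?_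
  intro W _ hWc
  obtain ⟨x, hx, hxW⟩ := exists_mem_notMem_of_card_lt_card
    (lt_of_lt_of_le (show W.card < 2 * addOrderOf v by omega) hm)
  rw [mem_filter] at hx
  refine ⟨{x}, ∅, ?_, empty_subset _, by simp, by simp [hx.2]⟩
  rw [singleton_subset_iff, mem_sdiff]
  exact ⟨hx.1, hxW⟩

lemma cov_of_invol [Finite Q] {φ : G →+ Q} {A : Finset G} {x : G} (hx : x ∈ A)
    (h0 : φ x ≠ 0) (h2 : φ x + φ x = 0) {w : ℕ} (hw : 4 ≤ w) : Cov φ A w := by
  have ho : addOrderOf (φ x) = 2 := by
    apply addOrderOf_eq_prime _ h0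
    rw [two_nsmul, h2]
  refine gadgets_cover h0 w (by omega) ?_
  intro W _ hWc
  have hW0 : W = ∅ := by
    rw [← card_eq_zero]; omega
  subst hW0
  exact ⟨{x}, ∅, by simpa using hx, empty_subset _, by simp, by simp⟩

lemma growth_of_not_bad [Fintype Q] {T : Finset Q} {c : ℕ}
    (h : ∀ H : AddSubgroup Q, HF H + star T ≠ univ →
      ¬ ((HF H + star T).card < (HF H).card + c)) :
    ∀ X : Finset Q, X.Nonempty → X + star T ≠ univ → X.card + c ≤ (X + star T).card := by
  intro X hX hXA
  by_contra hlt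
  push Not at hlt
  obtain ⟨H, hH1, hH2⟩ := mann (star T) star_neg star_nonempty c X hX hXA hlt
  exact h H hH1 hH2

lemma exists_not_mem_H [Fintype Q] {T : Finset Q}
    (hgen : AddSubgroup.closure (T : Set Q) = ⊤) {H : AddSubgroup Q}
    (hH : HF H + star T ≠ univ) : ∃ t ∈ star T, t ∉ H := by
  by_contra hcon
  push Not at hcon
  have h1 : AddSubgroup.closure (T : Set Q) ≤ H := by
    rw [AddSubgroup.closure_le]
    intro a ha
    exact hcon a (subset_star (by exact_mod_cast ha))
  rw [hgen, top_le_iff] at h1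
  apply hH
  rw [eq_univ_iff_forall]
  intro z
  exact mem_add.2 ⟨z, by rw [mem_HF, h1]; trivial, 0, mem_star.2 (Or.inl rfl), by simp⟩

/-- strong growth, case of many images -/
lemma strong_growth_many [Fintype Q] {φ : G →+ Q} {A : Finset G} {T : Finset Q} {w : ℕ}
    (hT : ∀ v ∈ T, ∃ x ∈ A, φ x = v) (hgen : AddSubgroup.closure (T : Set Q) = ⊤)
    (hncov : ¬ Cov φ A w) (hw : 2 ^ 21 ≤ w) (hcase : 10 * 2 ^ 40 ≤ (star T).card) :
    ∀ X : Finset Q, X.Nonempty → X + star T ≠ univ →
      X.card + ((star T).card - 1) ≤ (X + star T).card := by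
  apply growth_of_not_bad
  intro H hH hbad
  obtain ⟨t, ht, htH⟩ := exists_not_mem_H hgen hH
  apply hncov
  rcases Nat.lt_or_ge (HF H).card (2 ^ 20) with h | h
  · refine bad_small hT hbad (le_trans ?_ hcase) (by omega)
    have : (HF H).card ^ 2 ≤ (2 ^ 20) ^ 2 := Nat.pow_le_pow_left h.le 2
    calc 10 * (HF H).card ^ 2 ≤ 10 * (2 ^ 20) ^ 2 := Nat.mul_le_mul_left _ this
      _ = 10 * 2 ^ 40 := by norm_num
  · exact (bad_large hT hbad ht htH h).mono (Subset.refl _) (le_trans (by norm_num) hw)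

/-- strong growth, case of high multiplicities -/
lemma strong_growth_multi [Fintype Q] {φ : G →+ Q} {A : Finset G} {T : Finset Q} {w M : ℕ}
    (hT : ∀ v ∈ T, M ≤ (A.filter (fun x => φ x = v)).card)
    (hgen : AddSubgroup.closure (T : Set Q) = ⊤)
    (hncov : ¬ Cov φ A w) (hM : 2 * (star T).card ≤ M) (hw : 2 * (star T).card ≤ w) :
    ∀ X : Finset Q, X.Nonempty → X + star T ≠ univ →
      X.card + ((star T).card - 1) ≤ (X + star T).card := by
  apply growth_of_not_bad
  intro H hH hbad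
  obtain ⟨t, ht, htH⟩ := exists_not_mem_H hgen hH
  exact hncov (bad_multi hT hbad ht htH hM hw)

end Pool.Agent.Lib.MP_0b126a_co
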