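import Mathlib

open Finset
open scoped Classical Pointwise

namespace Pool.Agent.Lib.MP_0b126a_co

variable {G : Type*} [AddCommGroup G]

/-- `lam B x = |(B + x) \ B|` -/
noncomputable def lam (B : Finset G) (x : G) : ℕ := (B.image (· + x) \ B).card

lemma card_shift (B : Finset G) (x : G) : (B.image (· + x)).card = B.card :=
  Finset.card_image_of_injective _ (add_left_injective x)

lemma lam_add_inter (B : Finset G) (x : G) :
    lam B x + (B.image (· + x) ∩ B).card = B.card := by
  unfold lam
  rw [Finset.card_sdiff_add_card_inter, card_shift]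

lemma lam_le_card (B : Finset G) (x : G) : lam B x ≤ B.card := by
  have := lam_add_inter B x
  omega

lemma lam_zero (B : Finset G) : lam B 0 = 0 := by
  simp [lam]

lemma inter_neg (B : Finset G) (x : G) :
    (B.image (· + -x) ∩ B).card = (B.image (· + x) ∩ B).card := by
  have : (B.image (· + x) ∩ B).image (· + -x) = B.image (· + -x) ∩ B := by
    ext z
    simp only [mem_image, mem_inter]
    constructor
    · rintro ⟨a, ⟨⟨b, hb, rfl⟩, ha⟩, rfl⟩
      exact ⟨⟨b + x, ha, rfl⟩, by simpa using hb⟩
    · rintro ⟨⟨b, hb, rfl⟩, hz⟩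
      exact ⟨b, ⟨⟨b + -x, hz, by simp⟩, hb⟩, rfl⟩
  rw [← this, card_shift]

lemma lam_neg (B : Finset G) (x : G) : lam B (-x) = lam B x := by
  have h1 := lam_add_inter B x
  have h2 := lam_add_inter B (-x)
  rw [inter_neg] at h2
  omega

lemma lam_add (B : Finset G) (x y : G) : lam B (x + y) ≤ lam B x + lam B y := by
  have hsub : B.image (· + (x + y)) \ B ⊆
      (B.image (· + x) \ B).image (· + y) ∪ (B.image (· + y) \ B) := by
    intro z hz
    rw [mem_sdiff, mem_image] at hz
    obtain ⟨⟨b, hb, rfl⟩, hz⟩ := hz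
    rw [mem_union]
    by_cases h : b + x ∈ B
    · right
      rw [mem_sdiff]
      exact ⟨mem_image.2 ⟨b + x, h, by abel⟩, hz⟩
    · left
      rw [mem_image]
      exact ⟨b + x, mem_sdiff.2 ⟨mem_image.2 ⟨b, hb, rfl⟩, h⟩, by abel⟩
  calc lam B (x + y) ≤ _ := card_le_card hsub
    _ ≤ _ := card_union_le _ _
    _ = _ := by rw [card_shift]; rfl

/-- the averaging inequality -/
lemma sum_inter_le (B X : Finset G) :
    ∑ y ∈ X, (B.image (· + y) ∩ B).card ≤ B.card ^ 2 := by
  have h1 : ∑ y ∈ X, (B.image (· + y) ∩ B).card =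
      (X.sigma fun y => B.image (· + y) ∩ B).card := by
    rw [card_sigma]
  rw [h1, sq, ← card_product]
  refine card_le_card_of_injOn (fun p => (p.2 - p.1, p.2)) ?_ ?_
  · rintro ⟨y, z⟩ hp
    simp only [coe_sigma, Set.mem_sigma_iff, mem_coe, mem_inter, mem_image] at hp
    obtain ⟨_, ⟨b, hb, rfl⟩, hz⟩ := hp
    simp only [coe_product, Set.mem_prod, mem_coe]
    exact ⟨by simpa using hb, hz⟩
  · rintro ⟨y, z⟩ _ ⟨y', z'⟩ _ h
    simp only [Prod.mk.injEq] at h
    obtain ⟨h1, rfl⟩ := h
    have : y = y' := by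
      have := sub_right_injective h1
      exact this
    subst this
    rfl

lemma sum_lam_ge (B X : Finset G) :
    B.card * X.card ≤ ∑ y ∈ X, lam B y + B.card ^ 2 := by
  have h1 : ∑ y ∈ X, (lam B y + (B.image (· + y) ∩ B).card) = B.card * X.card := by
    rw [Finset.sum_congr rfl fun y _ => lam_add_inter B y, sum_const, smul_eq_mul, mul_comm]
  rw [sum_add_distrib] at h1
  have := sum_inter_le B X
  omega

lemma lam_compl [Fintype G] (B : Finset G) (x : G) : lam Bᶜ x = lam B x := by
  have h1 : Bᶜ.image (· + x) \ Bᶜ = B \ B.image (· + x) := by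
    ext z
    simp only [mem_sdiff, mem_image, mem_compl, not_not]
    constructor
    · rintro ⟨⟨b, hb, rfl⟩, hz⟩
      refine ⟨hz, ?_⟩
      rintro ⟨c, hc, hcb⟩
      exact hb (by rwa [add_right_cancel hcb] at hc)
    · rintro ⟨hz, h⟩
      refine ⟨⟨z - x, ?_, by simp⟩, hz⟩
      intro h'
      exact h ⟨z - x, h', by simp⟩
  have h2 : (B \ B.image (· + x)).card + (B.image (· + x) ∩ B).card = B.card := by
    rw [inter_comm, Finset.card_sdiff_add_card_inter]
  have h3 := lam_add_inter B x
  unfold lam at h3 ⊢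
  rw [h1]
  omega

/-- the distance of `|B|` to the extreme values -/
noncomputable def bet [Fintype G] (B : Finset G) : ℕ := min B.card (Fintype.card G - B.card)

lemma bet_eq [Fintype G] (B : Finset G) : bet B = B.card ∨ bet B = Bᶜ.card := by
  unfold bet
  rw [card_compl]
  exact min_choice _ _

lemma two_bet_le [Fintype G] (B : Finset G) : 2 * bet B ≤ Fintype.card G := by
  have h := card_le_univ B
  unfold bet
  omega

lemma sum_lam_ge_bet [Fintype G] (B X : Finset G) :
    bet B * X.card ≤ ∑ y ∈ X, lam B y + bet B ^ 2 := by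
  rcases bet_eq B with h | h
  · rw [h]; exact sum_lam_ge B X
  · rw [h]
    have := sum_lam_ge Bᶜ X
    simpa only [lam_compl] using this

/-- iterated sumsets -/
noncomputable def iter (A : Finset G) : ℕ → Finset G
  | 0 => {0}
  | j + 1 => iter A j + A

lemma lam_iter {B A : Finset G} {l : ℕ} (h : ∀ x ∈ A, lam B x ≤ l) (j : ℕ) :
    ∀ y ∈ iter A j, lam B y ≤ j * l := by
  induction j with
  | zero =>
    intro y hy
    simp only [iter, mem_singleton] at hy
    subst hy
    simp [lam_zero]
  | succ j ih =>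
    intro y hy
    simp only [iter, mem_add] at hy
    obtain ⟨a, ha, b, hb, rfl⟩ := hy
    calc lam B (a + b) ≤ lam B a + lam B b := lam_add _ _ _
      _ ≤ j * l + l := add_le_add (ih a ha) (h b hb)
      _ = (j + 1) * l := by ring

lemma iter_nonempty {A : Finset G} (hA : A.Nonempty) (j : ℕ) : (iter A j).Nonempty := by
  induction j with
  | zero => simp [iter]
  | succ j ih => simpa [iter] using ih.add hA

lemma card_iter [Fintype G] {A : Finset G} {r : ℕ} (hA : A.Nonempty)
    (hgrow : ∀ X : Finset G, X.Nonempty → X + A ≠ univ → X.card + r ≤ (X + A).card) (j : ℕ) :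
    min (Fintype.card G) (1 + j * r) ≤ (iter A j).card := by
  induction j with
  | zero => simp [iter]
  | succ j ih =>
    by_cases hu : iter A j + A = univ
    · simp only [iter, hu, card_univ]
      exact min_le_left _ _
    · have h1 := hgrow _ (iter_nonempty hA j) hu
      have h2 : iter A j ≠ univ := by
        intro h
        apply hu
        rw [h]
        obtain ⟨a, ha⟩ := hA
        refine eq_univ_of_forall fun z => mem_add.2 ⟨z - a, mem_univ _, a, ha, by simp⟩
      have h3 : (iter A j).card < Fintype.card G := by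
        rw [← card_univ]
        exact card_lt_card (ssubset_univ_iff.2 h2)
      have h4 : 1 + j * r ≤ (iter A j).card := by
        rcases min_le_iff.1 ih with h | h
        · omega
        · exact h
      simp only [iter]
      refine le_trans (min_le_right _ _) ?_
      calc 1 + (j + 1) * r = (1 + j * r) + r := by ring
        _ ≤ (iter A j).card + r := by omega
        _ ≤ _ := h1

/-- greedy choice -/
lemma greedy [Fintype G] (f : G → ℕ) (g : ℕ → ℕ) (c : ℕ)
    (h : ∀ i < c, i < (univ.filter fun y : G => f y ≤ g i).card) :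
    ∃ X : Finset G, X.card = c ∧ ∑ x ∈ X, f x ≤ ∑ i ∈ range c, g i := by
  induction c with
  | zero => exact ⟨∅, by simp, by simp⟩
  | succ c ih =>
    obtain ⟨X, hX, hs⟩ := ih fun i hi => h i (by omega)
    have h1 := h c (by omega)
    obtain ⟨y, hy, hyX⟩ := exists_mem_notMem_of_card_lt_card (by rw [hX]; exact h1 :
      X.card < (univ.filter fun y : G => f y ≤ g c).card)
    rw [mem_filter] at hy
    refine ⟨insert y X, by rw [card_insert_of_notMem hyX, hX], ?_⟩
    rw [sum_insert hyX, sum_range_succ]
    have := hy.2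
    omega

/-- The label lemma: if sumsets with `A` grow by `r` each time, then some translate by an element
of `A` moves `B` a lot. -/
lemma label [Fintype G] {A B : Finset G} {r l : ℕ} (hA : A.Nonempty) (hr : 0 < r)
    (hgrow : ∀ X : Finset G, X.Nonempty → X + A ≠ univ → X.card + r ≤ (X + A).card)
    (hl : ∀ x ∈ A, lam B x ≤ l) :
    r * bet B ≤ 2 * l * (bet B + r) := by
  set b := bet B with hb
  rcases Nat.eq_zero_or_pos b with h0 | hpos
  · rw [h0]; simp
  have h2b : 2 * b ≤ Fintype.card G := two_bet_le B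
  obtain ⟨X, hX, hs⟩ := greedy (fun y => lam B y) (fun i => ((i + r - 1) / r) * l) (2 * b) (by
    intro i hi
    set j := (i + r - 1) / r with hj
    have h1 := card_iter hA hgrow j
    have h2 : i ≤ j * r := by
      have h3 := Nat.div_add_mod (i + r - 1) r
      have h4 := Nat.mod_lt (i + r - 1) hr
      rw [← hj] at h3
      rw [mul_comm]
      omega
    have h3 : i < (iter A j).card := by
      have : i < min (Fintype.card G) (1 + j * r) := lt_min (by omega) (by omega)
      omega
    refine lt_of_lt_of_le h3 (card_le_card fun y hy => ?_)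
    rw [mem_filter]
    exact ⟨mem_univ _, lam_iter hl j y hy⟩)
  have h3 := sum_lam_ge_bet B X
  rw [hX, ← hb] at h3
  -- the right-hand sum
  have h4 : r * ∑ i ∈ range (2 * b), ((i + r - 1) / r) * l ≤
      l * ∑ i ∈ range (2 * b), (i + r) := by
    rw [mul_sum, mul_sum]
    refine sum_le_sum fun i _ => ?_
    have h5 : r * ((i + r - 1) / r) ≤ i + r - 1 := Nat.mul_div_le _ _
    calc r * ((i + r - 1) / r * l) = (r * ((i + r - 1) / r)) * l := by ring
      _ ≤ (i + r - 1) * l := Nat.mul_le_mul_right _ h5
      _ ≤ (i + r) * l := Nat.mul_le_mul_right _ (by omega)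
      _ = l * (i + r) := mul_comm _ _
  have h5 : ∑ i ∈ range (2 * b), (i + r) ≤ 2 * b * (b + r) := by
    rw [sum_add_distrib, sum_const, card_range, smul_eq_mul]
    have h6 := Finset.sum_range_id_mul_two (2 * b)
    have h7 : ∑ i ∈ range (2 * b), i ≤ 2 * b * b := by
      have h8 : (∑ i ∈ range (2 * b), i) * 2 ≤ (2 * b * b) * 2 := by
        rw [h6]
        calc 2 * b * (2 * b - 1) ≤ 2 * b * (2 * b) := Nat.mul_le_mul_left _ (by omega)
          _ = (2 * b * b) * 2 := by ring
      omega
    calc _ ≤ 2 * b * b + 2 * b * r := by omega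
      _ = _ := by ring
  have h6 : r * (b * (2 * b)) ≤ r * ∑ y ∈ X, lam B y + r * b ^ 2 := by
    rw [← mul_add]
    exact Nat.mul_le_mul_left _ h3
  have h7 : r * ∑ y ∈ X, lam B y ≤ l * (2 * b * (b + r)) :=
    calc r * ∑ y ∈ X, lam B y ≤ r * ∑ i ∈ range (2 * b), ((i + r - 1) / r) * l :=
          Nat.mul_le_mul_left _ hs
      _ ≤ _ := h4
      _ ≤ _ := Nat.mul_le_mul_left _ h5
  have h8 : b * (r * b) ≤ b * (2 * l * (b + r)) := by
    have h9 : r * (b * (2 * b)) = 2 * (b * (r * b)) := by ring
    have h10 : r * b ^ 2 = b * (r * b) := by ring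
    have h11 : l * (2 * b * (b + r)) = b * (2 * l * (b + r)) := by ring
    rw [h9, h10] at h6
    rw [h11] at h7
    omega
  exact Nat.le_of_mul_le_mul_left h8 hpos

end Pool.Agent.Lib.MP_0b126a_co
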