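import Pool.Agent.Lib.MP_0b126a_co.Core

open Finset
open scoped Classical Pointwise

namespace Pool.Agent.Lib.MP_0b126a_co

variable {G Q : Type*} [AddCommGroup G] [AddCommGroup Q]

/-- the contradiction from strong growth -/
lemma growth_contra [Fintype G] [Fintype Q] {φ : G →+ Q} {A : Finset G} {T : Finset Q}
    {a ε γ1 k : ℝ} (ha : 0 < a) (hε : 0 < ε) (hε1 : ε < 1 / 8) (hγ0 : 0 < γ1)
    (hγ : 2 * γ1 ≤ 1 - 8 * ε) (hP : 4 ≤ a * ε ^ 3 * k) (hAk : (A.card : ℝ) ≤ k)
    (hA0 : 0 < (A.card : ℝ))
    (hgrow : ∀ X : Finset Q, X.Nonempty → X + star T ≠ univ →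
      X.card + ((star T).card - 1) ≤ (X + star T).card)
    (hlam : ∀ v ∈ T, ((HF φ.ker).card : ℝ) * lam (Sq φ A) v < 2 * γ1 * A.card)
    (hT : 2 * (1 - ε) * A.card ≤ ((HF φ.ker).card : ℝ) * ((star T).card - 1 : ℕ))
    (hbet : a * ε ^ 2 * k ^ 2 / 2 ≤ ((HF φ.ker).card : ℝ) * bet (Sq φ A)) : False := by
  set h : ℝ := ((HF φ.ker).card : ℝ) with hh
  obtain ⟨l, hl, hl2⟩ : ∃ l : ℕ, (∀ v ∈ T, lam (Sq φ A) v ≤ l) ∧ h * l < 2 * γ1 * A.card := by
    rcases T.eq_empty_or_nonempty with rfl | hne
    · exact ⟨0, by simp, by simpa using mul_pos (mul_pos two_pos hγ0) hA0⟩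
    · obtain ⟨v, hv, hmax⟩ := T.exists_max_image (fun v => lam (Sq φ A) v) hne
      exact ⟨lam (Sq φ A) v, hmax, hlam v hv⟩
  set r := (star T).card - 1 with hr
  have hrpos : 0 < r := by
    rcases Nat.eq_zero_or_pos r with h0 | h0
    · rw [h0] at hT
      have : 0 < 2 * (1 - ε) * (A.card : ℝ) := by
        have : 0 < 1 - ε := by linarith
        positivity
      simp only [Nat.cast_zero, mul_zero] at hT
      linarith
    · exact h0
  have h1 := label (A := star T) (B := Sq φ A) (r := r) (l := l) star_nonempty hrpos hgrow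
    (lam_star hl)
  have h2 : ((r * bet (Sq φ A) : ℕ) : ℝ) ≤ ((2 * l * (bet (Sq φ A) + r) : ℕ) : ℝ) := by
    exact_mod_cast h1
  push_cast at h2
  have hh0 : 0 ≤ h := by positivity
  have h3 : (h * r) * (h * bet (Sq φ A)) ≤ 2 * (h * l) * (h * r + h * bet (Sq φ A)) := by
    have := mul_le_mul_of_nonneg_left h2 (mul_nonneg hh0 hh0)
    nlinarith
  exact real_contra hT hbet hl2 h3 hγ hAk hA0 hP hε hε1 ha

set_option maxHeartbeats 1000000 in
theorem claim [Fintype G] [Fintype Q] {φ : G →+ Q} {S W R : Finset G} {g : G} {w K : ℕ}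
    {a ε γ1 k : ℝ} (ha : 0 < a) (hε : 0 < ε) (hε1 : ε < 1 / 8) (hγ0 : 0 < γ1)
    (hγ : 2 * γ1 ≤ 1 - 8 * ε) (hγ2 : γ1 ≤ 2 * a * (1 - 8 * ε)) (hP : 4 ≤ a * ε ^ 3 * k)
    (hS : ZSF S) (hW : W ⊆ S) (hg : ∀ z ∈ φ.ker, g + z ∈ SS W) (hncov : ¬ Cov φ (S \ W) w)
    (hSk : (S.card : ℝ) ≤ k)
    (hR : R ⊆ S \ W) (hRc : ε * k ≤ R.card)
    (hprop : ∀ A : Finset G, ZSF A → K ≤ A.card → a * (A.card : ℝ) ^ 2 ≤ (SS A).card)
    (hh : ((HF φ.ker).card : ℝ) ≤ a * ε ^ 2 * k ^ 2 / 2)
    (hK : (K : ℝ) + 2 ≤ ε * k / 2)
    (hε2k : 1 ≤ ε ^ 2 * k)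
    (hw : 2 ^ 21 ≤ w) {U0 M : ℕ} (hU0 : 10 * 2 ^ 40 ≤ U0) (hMU : 2 * U0 ≤ M) (hw2 : 2 * U0 ≤ w)
    (hM : (U0 * M : ℝ) ≤ ε ^ 2 * k) (n : ℕ) :
    ∀ A : Finset G, A ⊆ S \ W → Disjoint A R → (∀ x ∈ A, φ x ≠ 0) →
      AddSubgroup.closure (A.image φ : Set Q) = ⊤ → A.card = n →
      γ1 * ((n : ℝ) ^ 2 - ε ^ 2 * k ^ 2) ≤ (HF φ.ker).card * (Sq φ A).card := by
  induction n using Nat.strong_induction_on with
  | _ n ih =>
    intro A hA hAR hA0 hgen hn
    set h : ℝ := ((HF φ.ker).card : ℝ) with hhdef
    have hh0 : 0 ≤ h := by positivity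
    have hApos : (0 : ℝ) ≤ n := by positivity
    rcases le_or_gt (n : ℝ) (ε * k) with hsmall | hbig
    · have h1 : (n : ℝ) ^ 2 ≤ ε ^ 2 * k ^ 2 := by
        have := pow_le_pow_left₀ hApos hsmall 2
        rw [mul_pow] at this
        exact this
      have h2 : γ1 * ((n : ℝ) ^ 2 - ε ^ 2 * k ^ 2) ≤ 0 :=
        mul_nonpos_of_nonneg_of_nonpos hγ0.le (by linarith)
      refine h2.trans ?_
      positivity
    have hAS : A ⊆ S := hA.trans sdiff_subset
    have hnk : (n : ℝ) ≤ k := by
      refine le_trans ?_ hSk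
      rw [← hn]
      exact_mod_cast card_le_card hAS
    have hk0 : 0 < k := by
      by_contra hcon
      push Not at hcon
      have : a * ε ^ 3 * k ≤ 0 := mul_nonpos_of_nonneg_of_nonpos (by positivity) hcon
      linarith
    have hn0 : (0 : ℝ) < n := lt_trans (by positivity) hbig
    have hεn : 1 ≤ ε * n := by
      have : ε * (ε * k) ≤ ε * n := mul_le_mul_of_nonneg_left hbig.le hε.le
      nlinarith
    -- lower bounds through `hprop`
    have hlow : ∀ A' : Finset G, A' ⊆ S → (K : ℝ) ≤ A'.card →
        a * (A'.card : ℝ) ^ 2 ≤ h * (Sq φ A').card := by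
      intro A' hA' hc
      have h1 := hprop A' (hS.mono hA') (by exact_mod_cast hc)
      have h2 := card_SS_le (φ := φ) (A := A')
      have h3 : ((SS A').card : ℝ) ≤ (((HF φ.ker).card * (Sq φ A').card : ℕ) : ℝ) := by
        exact_mod_cast h2
      push_cast at h3
      linarith
    -- doubling
    have hdbl : ∀ A' ⊆ A, (1 - ε) * n ≤ (A'.card : ℝ) →
        AddSubgroup.closure (A'.image φ : Set Q) ≠ ⊤ →
        γ1 * ((n : ℝ) ^ 2 - ε ^ 2 * k ^ 2) ≤ h * (Sq φ A).card := by
      intro A' hA' hc hne
      obtain ⟨v, hv, hvL⟩ := exists_notMem_of_closure (S := A.image φ) hgen hne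
      obtain ⟨x, hx, rfl⟩ := mem_image.1 hv
      have h1 := doubling (φ := φ) (A := A) (A' := A')
        (AddSubgroup.closure (A'.image φ : Set Q)) hA' (fun y hy =>
          AddSubgroup.subset_closure (by exact_mod_cast mem_image_of_mem φ hy)) hx hvL
      have h2 : (2 : ℝ) * (Sq φ A').card ≤ (Sq φ A).card := by exact_mod_cast h1
      have hεk : 0 < ε * k := by positivity
      have h3 := hlow A' (hA'.trans hAS) (by nlinarith)
      have h4 : ((1 - ε) * n) ^ 2 ≤ (A'.card : ℝ) ^ 2 := by
        apply pow_le_pow_left₀ _ hc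
        have : 0 ≤ 1 - ε := by linarith
        positivity
      have h5 : (1 - 8 * ε) * (n : ℝ) ^ 2 ≤ ((1 - ε) * n) ^ 2 := by
        rw [mul_pow]
        apply mul_le_mul_of_nonneg_right _ (by positivity)
        nlinarith
      have h6 : γ1 * (n : ℝ) ^ 2 ≤ 2 * a * ((1 - 8 * ε) * (n : ℝ) ^ 2) := by
        have := mul_le_mul_of_nonneg_right hγ2 (sq_nonneg (n : ℝ))
        linarith
      have h7 : 2 * a * ((1 - 8 * ε) * (n : ℝ) ^ 2) ≤ 2 * a * (A'.card : ℝ) ^ 2 :=
        mul_le_mul_of_nonneg_left (h5.trans h4) (by positivity)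
      have h8 : h * (2 * (Sq φ A').card) ≤ h * (Sq φ A).card :=
        mul_le_mul_of_nonneg_left h2 hh0
      have h9 : 0 ≤ γ1 * (ε ^ 2 * k ^ 2) := by positivity
      nlinarith
    by_cases hx : ∃ x ∈ A, 2 * γ1 * n ≤ h * lam (Sq φ A) (φ x)
    · obtain ⟨x, hx, hxl⟩ := hx
      have hcard : (A.erase x).card = n - 1 := by rw [card_erase_of_mem hx, hn]
      have hn1 : 1 ≤ n := by
        have : 0 < A.card := card_pos.2 ⟨x, hx⟩
        omega
      by_cases hg' : AddSubgroup.closure ((A.erase x).image φ : Set Q) = ⊤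
      · have h1 := ih (n - 1) (by omega) (A.erase x) ((erase_subset _ _).trans hA)
          (disjoint_of_subset_left (erase_subset _ _) hAR)
          (fun y hy => hA0 y (mem_of_mem_erase hy)) hg' hcard
        have h2 := drop (φ := φ) hx
        have h3 : ((Sq φ (A.erase x)).card : ℝ) + lam (Sq φ A) (φ x) ≤ (Sq φ A).card := by
          exact_mod_cast h2
        have h4 := mul_le_mul_of_nonneg_left h3 hh0
        have h5 : ((n - 1 : ℕ) : ℝ) = n - 1 := by
          rw [Nat.cast_sub hn1]; simp
        rw [h5] at h1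
        linarith
      · refine hdbl (A.erase x) (erase_subset _ _) ?_ hg'
        rw [hcard, Nat.cast_sub hn1]
        push_cast
        linarith
    · push Not at hx
      have hgenL : ∀ x ∈ A, φ x + φ x ≠ 0 := by
        intro x hxA h2
        exact hncov (cov_of_invol (hA hxA) (hA0 x hxA) h2 (le_trans (by norm_num) hw))
      have hncovA : ¬ Cov φ A w := fun hc => hncov (hc.mono hA le_rfl)
      -- lower bound for `bet`
      have hbet : a * ε ^ 2 * k ^ 2 / 2 ≤ h * bet (Sq φ A) := by
        have hεk : 0 < ε * k := by positivity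
        have h1 : a * ε ^ 2 * k ^ 2 ≤ h * (Sq φ A).card := by
          have h2 := hlow A hAS (by rw [hn]; linarith)
          have h3 : (ε * k) ^ 2 ≤ (n : ℝ) ^ 2 := pow_le_pow_left₀ hεk.le hbig.le 2
          rw [hn] at h2
          have h4 := mul_le_mul_of_nonneg_left h3 ha.le
          have h5 : a * (ε * k) ^ 2 = a * ε ^ 2 * k ^ 2 := by ring
          linarith
        have h4 : a * ε ^ 2 * k ^ 2 ≤ h * (Sq φ R).card := by
          have h2 := hlow R (hR.trans sdiff_subset) (by linarith)
          have h3 : (ε * k) ^ 2 ≤ (R.card : ℝ) ^ 2 := pow_le_pow_left₀ hεk.le hRc 2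
          have h4 := mul_le_mul_of_nonneg_left h3 ha.le
          have h5 : a * (ε * k) ^ 2 = a * ε ^ 2 * k ^ 2 := by ring
          linarith
        have h5 := flex_compl hS hW hg hA hR hAR
        have h6 : (Sq φ A).card ≤ Fintype.card Q := card_le_univ _
        have h7 : ((Sq φ R).card : ℝ) ≤ ((Fintype.card Q - (Sq φ A).card : ℕ) : ℝ) + 1 := by
          exact_mod_cast h5
        have h8 : a * ε ^ 2 * k ^ 2 / 2 ≤ h * ((Fintype.card Q - (Sq φ A).card : ℕ) : ℝ) := by
          have := mul_le_mul_of_nonneg_left h7 hh0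
          rw [mul_add, mul_one] at this
          linarith
        have h9 : a * ε ^ 2 * k ^ 2 / 2 ≤ a * ε ^ 2 * k ^ 2 := by
          have : 0 ≤ a * ε ^ 2 * k ^ 2 := by positivity
          linarith
        unfold bet
        rcases min_choice (Sq φ A).card (Fintype.card Q - (Sq φ A).card) with hm | hm
        · rw [hm]; linarith
        · rw [hm]; exact h8
      have hAc : (A.card : ℝ) = n := by rw [hn]
      have hsub : A.filter (fun x => φ x ∈ A.image φ) = A :=
        filter_true_of_mem fun x hx => mem_image_of_mem _ hx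
      by_cases hcase : U0 ≤ (star (A.image φ)).card
      · exfalso
        have hgrow := strong_growth_many (φ := φ) (A := A) (T := A.image φ) (w := w)
          (fun v hv => by
            obtain ⟨x, hx, hxv⟩ := mem_image.1 hv
            exact ⟨x, hx, hxv⟩) hgen hncovA hw (hU0.trans hcase)
        have h1 := two_card_le (hS.mono hAS) hgenL (A.image φ)
        rw [hsub] at h1
        have h2 : (2 : ℝ) * A.card ≤ h * ((star (A.image φ)).card - 1 : ℕ) := by
          rw [hhdef]
          exact_mod_cast h1
        refine growth_contra (φ := φ) (A := A) (T := A.image φ) ha hε hε1 hγ0 hγ hP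
          (by rw [hAc]; exact hnk) (by rw [hAc]; exact hn0) hgrow ?_ ?_ hbet
        · intro v hv
          obtain ⟨x, hx', rfl⟩ := mem_image.1 hv
          rw [hAc]
          exact hx x hx'
        · refine le_trans ?_ h2
          rw [hAc]
          have h3 : 0 ≤ ε * n := by positivity
          linarith
      · push Not at hcase
        set T := (A.image φ).filter
          (fun v => M ≤ (A.filter (fun x => φ x = v)).card) with hTdef
        have hTsub : T ⊆ A.image φ := filter_subset _ _
        have hstar : star T ⊆ star (A.image φ) := by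
          intro x hx
          rw [mem_star] at hx ⊢
          rcases hx with h | h | h
          · exact Or.inl h
          · exact Or.inr (Or.inl (hTsub h))
          · exact Or.inr (Or.inr (hTsub h))
        have hstarc := card_le_card hstar
        set A2 := A.filter (fun x => φ x ∈ T) with hA2
        have hA2sub : A2 ⊆ A := filter_subset _ _
        -- most elements are in A2
        have hA2c : A.card ≤ A2.card + U0 * M := by
          have e1 : A2.card + (A.filter (fun x => ¬ φ x ∈ T)).card = A.card :=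
            card_filter_add_card_filter_not _
          have e2 : (A.filter (fun x => ¬ φ x ∈ T)).card ≤ (A.image φ).card * M := by
            rw [mul_comm]
            refine card_le_mul_card_image_of_maps_to (f := φ) ?_ M ?_
            · intro x hx
              exact mem_image_of_mem _ (mem_filter.1 hx).1
            · intro v hv
              by_cases hvT : v ∈ T
              · have : (A.filter (fun x => ¬ φ x ∈ T)).filter (fun x => φ x = v) = ∅ := by
                  rw [filter_eq_empty_iff]
                  intro x hx hxv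
                  rw [mem_filter, hxv] at hx
                  exact hx.2 hvT
                rw [this]; simp
              · rw [hTdef, mem_filter] at hvT
                push Not at hvT
                refine le_trans (card_le_card ?_) (hvT hv).le
                exact filter_subset_filter _ (filter_subset _ _)
          have e3 : (A.image φ).card ≤ U0 :=
            (card_le_card subset_star).trans hcase.le
          have e4 : (A.image φ).card * M ≤ U0 * M := Nat.mul_le_mul_right _ e3
          omega
        have hA2c' : (1 - ε) * n ≤ (A2.card : ℝ) := by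
          have h1 : (A.card : ℝ) ≤ A2.card + U0 * M := by
            exact_mod_cast hA2c
          have h2 : ε ^ 2 * k ≤ ε * n := by
            have := mul_le_mul_of_nonneg_left hbig.le hε.le
            linarith
          rw [hAc] at h1
          linarith
        by_cases hgT : AddSubgroup.closure (T : Set Q) = ⊤
        · exfalso
          have hgrow := strong_growth_multi (φ := φ) (A := A) (T := T) (w := w) (M := M)
            (fun v hv => (mem_filter.1 hv).2) hgT hncovA (by omega) (by omega)
          have h1 := two_card_le (hS.mono hAS) hgenL T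
          rw [← hA2] at h1
          have h2 : (2 : ℝ) * A2.card ≤ h * ((star T).card - 1 : ℕ) := by
            rw [hhdef]
            exact_mod_cast h1
          refine growth_contra (φ := φ) (A := A) (T := T) ha hε hε1 hγ0 hγ hP
            (by rw [hAc]; exact hnk) (by rw [hAc]; exact hn0) hgrow ?_ ?_ hbet
          · intro v hv
            obtain ⟨x, hx', rfl⟩ := mem_image.1 (hTsub hv)
            rw [hAc]
            exact hx x hx'
          · refine le_trans ?_ h2
            rw [hAc]
            linarith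
        · refine hdbl A2 hA2sub hA2c' fun hcon => hgT ?_
          rw [← top_le_iff, ← hcon, AddSubgroup.closure_le]
          intro v hv
          have hv' : v ∈ A2.image φ := by exact_mod_cast hv
          obtain ⟨x, hx', rfl⟩ := mem_image.1 hv'
          exact AddSubgroup.subset_closure (by exact_mod_cast (mem_filter.1 hx').2)

end Pool.Agent.Lib.MP_0b126a_co
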