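import Pool.Agent.Lib.MP_0b126a_co.Pair

open Finset
open scoped Classical Pointwise

namespace Pool.Agent.Lib.MP_0b126a_co

variable {G Q : Type*} [AddCommGroup G] [AddCommGroup Q]

lemma few_of_card_le [Finite Q] {φ : G →+ Q} {A : Finset G} (hA0 : ∀ x ∈ A, φ x ≠ 0)
    {N w : ℕ} (hN : (Sq φ A).card ≤ N) (hw : 2 * N ≤ w) (hncov : ¬ Cov φ A w) :
    A.card ≤ N * (2 * N) := by
  by_contra hlt
  push Not at hlt
  have himg : A.image φ ⊆ Sq φ A := by
    intro v hv
    obtain ⟨x, hx, rfl⟩ := mem_image.1 hv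
    exact mem_Sq_of_mem hx
  have h1 : (A.image φ).card * (2 * N) < A.card :=
    lt_of_le_of_lt (Nat.mul_le_mul_right _ ((card_le_card himg).trans hN)) hlt
  obtain ⟨v, hv, hvc⟩ := exists_lt_card_fiber_of_mul_lt_card_of_maps_to
    (f := φ) (t := A.image φ) (fun a ha => mem_image_of_mem _ ha) h1
  obtain ⟨x0, hx0, hx0v⟩ := mem_image.1 hv
  have hv0 : v ≠ 0 := by
    rw [← hx0v]; exact hA0 _ hx0
  have hord : addOrderOf v ≤ N := by
    by_contra hord
    push Not at hord
    have h2 : (range (N + 1)).image (fun j => j • v) ⊆ Sq φ A := by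
      intro z hz
      obtain ⟨j, hj, rfl⟩ := mem_image.1 hz
      rw [mem_range] at hj
      obtain ⟨B, hB, hBc⟩ := exists_subset_card_eq (s := A.filter (fun x => φ x = v)) (n := j)
        (by omega)
      refine mem_Sq.2 ⟨B, hB.trans (filter_subset _ _), ?_⟩
      rw [map_sum, sum_congr rfl fun x hx => (mem_filter.1 (hB hx)).2, sum_const, hBc]
    have h3 := card_le_card h2
    rw [card_image_of_injOn, card_range] at h3
    · omega
    · intro i hi j hj hij
      simp only [coe_range, Set.mem_Iio] at hi hj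
      exact nsmul_injOn_Iio_addOrderOf (Set.mem_Iio.2 (by omega)) (Set.mem_Iio.2 (by omega)) hij
  exact hncov (cov_of_mult hv0 (by omega) (by omega))

lemma fiber_card [Fintype G] {φ : G →+ Q} {U : Finset G} {v : Q} (hU : ∀ x ∈ U, φ x = v) :
    U.card ≤ (HF φ.ker).card := by
  rcases U.eq_empty_or_nonempty with rfl | ⟨x0, hx0⟩
  · simp
  · refine card_le_card_of_injOn (fun g => g - x0) ?_ ?_
    · intro g hg
      have : g - x0 ∈ HF φ.ker := by
        rw [mem_HF, AddMonoidHom.mem_ker, map_sub, hU g (by exact_mod_cast hg), hU x0 hx0,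
          sub_self]
      exact_mod_cast this
    · intro a _ b _ h
      exact sub_left_injective h

lemma two_card_le [Fintype G] {φ : G →+ Q} {A : Finset G} (hA : ZSF A)
    (h2 : ∀ x ∈ A, φ x + φ x ≠ 0) (T : Finset Q) :
    2 * (A.filter (fun x => φ x ∈ T)).card ≤ (HF φ.ker).card * ((star T).card - 1) := by
  set A2 := A.filter (fun x => φ x ∈ T) with hA2
  have hne0 : ∀ x ∈ A, φ x ≠ 0 := by
    intro x hx h
    apply h2 x hx
    rw [h]; simp
  have hmaps1 : ∀ x ∈ A2, φ x ∈ (star T).erase 0 := by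
    intro x hx
    rw [hA2, mem_filter] at hx
    rw [mem_erase]
    exact ⟨hne0 x hx.1, subset_star hx.2⟩
  have hmaps2 : ∀ x ∈ A2, -φ x ∈ (star T).erase 0 := by
    intro x hx
    have := hmaps1 x hx
    rw [mem_erase] at this ⊢
    exact ⟨neg_ne_zero.2 this.1, star_neg _ this.2⟩
  have e1 := card_eq_sum_card_fiberwise (f := fun x => φ x) (s := A2) (t := (star T).erase 0)
    hmaps1
  have e2 := card_eq_sum_card_fiberwise (f := fun x => -φ x) (s := A2) (t := (star T).erase 0)
    hmaps2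
  have e3 : 2 * A2.card = ∑ v ∈ (star T).erase 0, ((A2.filter (fun x => φ x = v)).card +
      (A2.filter (fun x => -φ x = v)).card) := by
    rw [sum_add_distrib, ← e1, ← e2]; ring
  have e4 : ((star T).erase 0).card = (star T).card - 1 :=
    card_erase_of_mem (mem_star.2 (Or.inl rfl))
  rw [e3, ← e4, mul_comm, ← smul_eq_mul, ← sum_const]
  refine sum_le_sum fun v _ => ?_
  rw [← card_image_of_injective (A2.filter (fun x => -φ x = v)) neg_injective,
    ← card_union_of_disjoint]
  · apply fiber_card (v := v)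
    intro x hx
    rcases mem_union.1 hx with hx | hx
    · exact (mem_filter.1 hx).2
    · obtain ⟨y, hy, rfl⟩ := mem_image.1 hx
      rw [map_neg]
      exact (mem_filter.1 hy).2
  · rw [disjoint_left]
    intro x hx hx'
    obtain ⟨y, hy, rfl⟩ := mem_image.1 hx'
    rw [mem_filter] at hx hy
    have hx1 := (mem_filter.1 hx.1).1
    have hy1 := (mem_filter.1 hy.1).1
    have hne : -y ≠ y := by
      intro h
      apply h2 y hy1
      have : φ (-y) = φ y := by rw [h]
      rw [map_neg] at this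
      rw [← sub_eq_zero] at this
      have h3 : φ y + φ y = -(-φ y - φ y) := by abel
      rw [h3, this, neg_zero]
    refine hA {-y, y} ?_ (insert_nonempty _ _) ?_
    · intro z hz
      rw [mem_insert, mem_singleton] at hz
      rcases hz with rfl | rfl
      · exact hx1
      · exact hy1
    · rw [sum_pair hne]; simp

lemma real_contra {x y hl m k a ε γ1 : ℝ} (hx : 2 * (1 - ε) * m ≤ x)
    (hy : a * ε ^ 2 * k ^ 2 / 2 ≤ y) (hhl : hl < 2 * γ1 * m)
    (h : x * y ≤ 2 * hl * (x + y)) (hγ : 2 * γ1 ≤ 1 - 8 * ε) (hmk : m ≤ k) (hm : 0 < m)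
    (hP : 4 ≤ a * ε ^ 3 * k) (hε : 0 < ε) (hε1 : ε < 1 / 8) (ha : 0 < a) : False := by
  have hk : 0 < k := by linarith
  have hx0 : 0 < x := by
    refine lt_of_lt_of_le ?_ hx
    have : 0 < 1 - ε := by linarith
    positivity
  have hy0 : 0 < y := by
    refine lt_of_lt_of_le ?_ hy
    positivity
  have h1 : x * y < 2 * (2 * γ1 * m) * (x + y) := by
    refine lt_of_le_of_lt h ?_
    have : 0 < x + y := by linarith
    nlinarith
  have h2 : 2 * (2 * γ1 * m) ≤ 2 * (1 - 8 * ε) * m := by nlinarith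
  have h3 : x * y < 2 * (1 - 8 * ε) * m * (x + y) := by
    refine lt_of_lt_of_le h1 ?_
    exact mul_le_mul_of_nonneg_right h2 (by linarith)
  have h4 : 2 * (1 - 8 * ε) * m ≤ (1 - ε) * x := by
    have h5 : (1 - ε) * (2 * (1 - ε) * m) ≤ (1 - ε) * x :=
      mul_le_mul_of_nonneg_left hx (by linarith)
    have h6 : 2 * (1 - 8 * ε) * m ≤ (1 - ε) * (2 * (1 - ε) * m) := by
      have : (1 - 8 * ε) ≤ (1 - ε) * (1 - ε) := by nlinarith
      nlinarith
    linarith
  have h5 : x * y < 2 * (1 - 8 * ε) * m * x + (1 - ε) * x * y := by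
    have : 2 * (1 - 8 * ε) * m * y ≤ (1 - ε) * x * y := mul_le_mul_of_nonneg_right h4 hy0.le
    nlinarith
  have h6 : x * (ε * y) < x * (2 * (1 - 8 * ε) * m) := by nlinarith
  have h7 : ε * y < 2 * (1 - 8 * ε) * m := lt_of_mul_lt_mul_left h6 hx0.le
  have h8 : 2 * (1 - 8 * ε) * m ≤ 2 * k := by nlinarith
  have h9 : ε * (a * ε ^ 2 * k ^ 2 / 2) ≤ ε * y := mul_le_mul_of_nonneg_left hy hε.le
  have h10 : ε * (a * ε ^ 2 * k ^ 2 / 2) = (a * ε ^ 3 * k) * k / 2 := by ring
  have h11 : 4 * k / 2 ≤ (a * ε ^ 3 * k) * k / 2 := by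
    have := mul_le_mul_of_nonneg_right hP hk.le
    linarith
  linarith

end Pool.Agent.Lib.MP_0b126a_co
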