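import Pool.Agent.Lib.MP_0b126a_co.Quad

open Finset
open scoped Classical Pointwise

namespace Pool.Agent.Lib.MP_0b126a_co

section cover

variable {G : Type*} [AddCommGroup G]

/-- sums of `p` elements of `U` (with `|U| = 2 p`) cover `C` -/
def St (P U C : Finset G) (p : ℕ) : Prop :=
  U ⊆ P ∧ U.card = 2 * p ∧ C.Nonempty ∧ ∀ z ∈ C, ∃ B ⊆ U, B.card = p ∧ ∑ x ∈ B, x = z

lemma st_zero (P : Finset G) : St P ∅ {0} 0 :=
  ⟨empty_subset _, by simp, by simp, fun z hz => ⟨∅, empty_subset _, by simp, by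
    rw [mem_singleton] at hz; simp [hz]⟩⟩

lemma st_step {P U C : Finset G} {p : ℕ} (h : St P U C p) {x y : G} (hx : x ∈ P \ U)
    (hy : y ∈ P \ U) (hxy : x ≠ y) :
    St P (insert x (insert y U)) (C.image (· + x) ∪ C.image (· + y)) (p + 1) := by
  obtain ⟨h1, h2, h3, h4⟩ := h
  rw [mem_sdiff] at hx hy
  have hx' : x ∉ insert y U := by
    rw [mem_insert]; push Not; exact ⟨hxy, hx.2⟩
  refine ⟨insert_subset hx.1 (insert_subset hy.1 h1), ?_, ?_, ?_⟩
  · rw [card_insert_of_notMem hx', card_insert_of_notMem hy.2, h2]; ring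
  · exact (h3.image _).mono subset_union_left
  · intro z hz
    rcases mem_union.1 hz with hz | hz
    · obtain ⟨c, hc, rfl⟩ := mem_image.1 hz
      obtain ⟨B, hB, hBp, rfl⟩ := h4 c hc
      have hxB : x ∉ B := fun h => hx.2 (hB h)
      refine ⟨insert x B, insert_subset_insert _ (hB.trans (subset_insert _ _)), ?_, ?_⟩
      · rw [card_insert_of_notMem hxB, hBp]
      · rw [sum_insert hxB, add_comm]
    · obtain ⟨c, hc, rfl⟩ := mem_image.1 hz
      obtain ⟨B, hB, hBp, rfl⟩ := h4 c hc
      have hyB : y ∉ B := fun h => hy.2 (hB h)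
      refine ⟨insert y B, (insert_subset_insert _ hB).trans (subset_insert _ _), ?_, ?_⟩
      · rw [card_insert_of_notMem hyB, hBp]
      · rw [sum_insert hyB, add_comm]

lemma card_two_shifts (C : Finset G) (x y : G) :
    (C.image (· + x) ∪ C.image (· + y)).card = C.card + lam C (y - x) := by
  have h1 : C.image (· + x) ∪ C.image (· + y) = (C ∪ C.image (· + (y - x))).image (· + x) := by
    ext z
    simp only [mem_union, mem_image]
    constructor
    · rintro (⟨c, hc, rfl⟩ | ⟨c, hc, rfl⟩)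
      · exact ⟨c, Or.inl hc, rfl⟩
      · exact ⟨c + (y - x), Or.inr ⟨c, hc, rfl⟩, by abel⟩
    · rintro ⟨c, hc | ⟨c', hc', rfl⟩, rfl⟩
      · exact Or.inl ⟨c, hc, rfl⟩
      · exact Or.inr ⟨c', hc', by abel⟩
  rw [h1, card_shift, ← union_sdiff_self_eq_union, card_union_of_disjoint disjoint_sdiff]
  rfl

lemma exists_diff [Fintype G] (hn : 18 ≤ Fintype.card G) (P C : Finset G)
    (hgen : AddSubgroup.closure ((P - P : Finset G) : Set G) = ⊤)
    (hdens : Fintype.card G ≤ 6 * P.card) :
    ∃ x ∈ P, ∃ y ∈ P, bet C ≤ 20 * lam C (y - x) := by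
  by_contra hcon
  push Not at hcon
  have hP : P.Nonempty := by
    rw [← card_pos]; omega
  obtain ⟨p0, hp0⟩ := hP
  have hsym : ∀ a ∈ P - P, -a ∈ P - P := by
    intro a ha
    obtain ⟨x, hx, y, hy, rfl⟩ := mem_sub.1 ha
    exact mem_sub.2 ⟨y, hy, x, hx, by abel⟩
  have h0 : (0 : G) ∈ P - P := mem_sub.2 ⟨p0, hp0, p0, hp0, by simp⟩
  have hcard : P.card ≤ (P - P).card := by
    have : P.image (· + -p0) ⊆ P - P := by
      intro z hz
      obtain ⟨x, hx, rfl⟩ := mem_image.1 hz
      exact mem_sub.2 ⟨x, hx, p0, hp0, by abel⟩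
    have := card_le_card this
    rwa [card_shift] at this
  have hbpos : 0 < bet C := by
    have := hcon p0 hp0 p0 hp0
    omega
  set l := (bet C - 1) / 20 with hl
  have hlam : ∀ x ∈ P - P, lam C x ≤ l := by
    intro a ha
    obtain ⟨x, hx, y, hy, rfl⟩ := mem_sub.1 ha
    have := hcon y hy x hx
    rw [hl, Nat.le_div_iff_mul_le (by norm_num)]
    omega
  have h1 := label (A := P - P) (B := C) (r := (P - P).card / 2) (l := l) ⟨0, h0⟩ (by omega)
    (growth_weak hsym h0 hgen) hlam
  have h2 := two_bet_le C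
  set r := (P - P).card / 2 with hr
  have h3 : bet C ≤ 9 * r := by omega
  have h4 : r * bet C ≤ 2 * l * (10 * r) := h1.trans (Nat.mul_le_mul_left _ (by omega))
  have h5 : r * bet C ≤ r * (20 * l) := by
    calc r * bet C ≤ _ := h4
      _ = _ := by ring
  have h6 := Nat.le_of_mul_le_mul_left h5 (by omega)
  omega

lemma cover_all [Fintype G] (P : Finset G) (hn : 18 ≤ Fintype.card G) (b : ℕ)
    (hb : b = 58 * (Nat.log 2 (Fintype.card G) + 1))
    (hgen : ∀ U ⊆ P, U.card ≤ b →
      AddSubgroup.closure (((P \ U) - (P \ U) : Finset G) : Set G) = ⊤)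
    (hdens : ∀ U ⊆ P, U.card ≤ b → Fintype.card G ≤ 6 * (P \ U).card) :
    ∃ W ⊆ P, W.card ≤ b ∧ ∃ p, ∀ z : G, ∃ B ⊆ W, B.card = p ∧ ∑ x ∈ B, x = z := by
  set n := Fintype.card G with hn'
  set L := Nat.log 2 n + 1 with hL
  have hnL : n < 2 ^ L := Nat.lt_pow_succ_log_self (by norm_num) n
  -- one step
  have step : ∀ U C p, St P U C p → 2 * p ≤ b → 0 < bet C →
      ∃ U' C', St P U' C' (p + 1) ∧ 20 * C.card + bet C ≤ 20 * C'.card := by
    intro U C p h hp hbet
    have hUb : U.card ≤ b := by rw [h.2.1]; exact hp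
    obtain ⟨x, hx, y, hy, hxy⟩ := exists_diff hn (P \ U) C (hgen U h.1 hUb) (hdens U h.1 hUb)
    have hne : x ≠ y := by
      rintro rfl
      rw [sub_self, lam_zero] at hxy
      omega
    refine ⟨_, _, st_step h hx hy hne, ?_⟩
    rw [card_two_shifts]
    omega
  -- phase one
  have phase1 : ∀ j, 2 * j ≤ b → ∃ p ≤ j, ∃ U C, St P U C p ∧
      (n ≤ 2 * C.card ∨ (21 / 20 : ℝ) ^ j ≤ C.card) := by
    intro j
    induction j with
    | zero =>
      intro _
      exact ⟨0, le_refl _, ∅, {0}, st_zero P, Or.inr (by simp)⟩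
    | succ j ih =>
      intro hj
      obtain ⟨p, hp, U, C, hSt, hC⟩ := ih (by omega)
      rcases hC with hC | hC
      · exact ⟨p, by omega, U, C, hSt, Or.inl hC⟩
      · by_cases hC2 : n ≤ 2 * C.card
        · exact ⟨p, by omega, U, C, hSt, Or.inl hC2⟩
        · push Not at hC2
          have hCpos : 0 < C.card := card_pos.2 hSt.2.2.1
          have hbet : bet C = C.card := by
            unfold bet
            rw [← hn']
            exact min_eq_left (by omega)
          obtain ⟨U', C', hSt', hcard⟩ := step U C p hSt (by omega) (by omega)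
          refine ⟨p + 1, by omega, U', C', hSt', Or.inr ?_⟩
          rw [hbet] at hcard
          have h1 : (20 * (C.card : ℝ) + C.card) ≤ 20 * C'.card := by exact_mod_cast hcard
          rw [pow_succ]
          nlinarith
  obtain ⟨p1, hp1, U1, C1, hSt1, hC1⟩ := phase1 (15 * L) (by omega)
  have hC1' : n ≤ 2 * C1.card := by
    rcases hC1 with h | h
    · exact h
    · exfalso
      have h1 : (2 : ℝ) ^ L ≤ C1.card := by
        refine le_trans ?_ h
        rw [pow_mul]
        exact pow_le_pow_left₀ (by norm_num) (by norm_num) _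
      have h2 : 2 ^ L ≤ C1.card := by exact_mod_cast h1
      have h3 : C1.card ≤ n := card_le_univ _
      omega
  -- phase two
  have phase2 : ∀ j, 2 * (15 * L + j) ≤ b → ∃ p ≤ 15 * L + j, ∃ U C, St P U C p ∧
      n ≤ 2 * C.card ∧ ((n : ℝ) - C.card) ≤ n * (19 / 20 : ℝ) ^ j := by
    intro j
    induction j with
    | zero =>
      intro _
      refine ⟨p1, hp1, U1, C1, hSt1, hC1', ?_⟩
      have : (0 : ℝ) ≤ C1.card := by positivity
      simp
    | succ j ih =>
      intro hj
      obtain ⟨p, hp, U, C, hSt, hC, hc⟩ := ih (by omega)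
      have hCn : C.card ≤ n := card_le_univ _
      rcases Nat.lt_or_ge C.card n with hlt | hge
      · have hbet : bet C = n - C.card := by
          unfold bet
          rw [← hn']
          exact min_eq_right (by omega)
        obtain ⟨U', C', hSt', hcard⟩ := step U C p hSt (by omega) (by omega)
        have hC'n : C'.card ≤ n := card_le_univ _
        refine ⟨p + 1, by omega, U', C', hSt', by omega, ?_⟩
        rw [hbet] at hcard
        have h1 : 19 * C.card + n ≤ 20 * C'.card := by omega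
        have h2 : (19 * (C.card : ℝ) + n) ≤ 20 * C'.card := by exact_mod_cast h1
        rw [pow_succ]
        nlinarith
      · refine ⟨p, by omega, U, C, hSt, hC, ?_⟩
        have h1 : C.card = n := by omega
        rw [h1, sub_self]
        positivity
  obtain ⟨p, hp, U, C, hSt, hC, hc⟩ := phase2 (14 * L) (by omega)
  have hfull : C = univ := by
    have hCn : C.card ≤ n := card_le_univ _
    have h1 : (n : ℝ) * (19 / 20 : ℝ) ^ (14 * L) < 1 := by
      have h2 : ((19 / 20 : ℝ) ^ (14 * L)) ≤ (1 / 2) ^ L := by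
        rw [pow_mul]
        exact pow_le_pow_left₀ (by norm_num) (by norm_num) _
      have h3 : (n : ℝ) < 2 ^ L := by exact_mod_cast hnL
      have h4 : (0 : ℝ) < (1 / 2) ^ L := by positivity
      calc (n : ℝ) * (19 / 20 : ℝ) ^ (14 * L) ≤ n * (1 / 2) ^ L :=
            mul_le_mul_of_nonneg_left h2 (by positivity)
        _ < 2 ^ L * (1 / 2) ^ L := mul_lt_mul_of_pos_right h3 h4
        _ = 1 := by rw [← mul_pow]; norm_num
    have h5 : (n : ℝ) - C.card < 1 := lt_of_le_of_lt hc h1
    have h6 : (n : ℝ) < C.card + 1 := by linarith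
    have h7 : n < C.card + 1 := by exact_mod_cast h6
    exact (card_eq_iff_eq_univ _).1 (by omega)
  refine ⟨U, hSt.1, by rw [hSt.2.1]; omega, p, fun z => ?_⟩
  exact hSt.2.2.2 z (by rw [hfull]; exact mem_univ _)

end cover

lemma num_aux (t : ℕ) (ht : 20 ≤ t) : 1740 * (t + 1) ^ 2 ≤ 2 ^ t := by
  induction t, ht using Nat.le_induction with
  | base => norm_num
  | succ t ht ih =>
    rw [pow_succ 2 t]
    nlinarith

lemma num_aux2 (n : ℕ) (hn : 2 ^ 20 ≤ n) : 1740 * (Nat.log 2 n + 1) ^ 2 ≤ n := by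
  have h1 : 20 ≤ Nat.log 2 n := (Nat.le_log_iff_pow_le (by norm_num) (by omega)).2 hn
  have h2 := num_aux _ h1
  have h3 : 2 ^ Nat.log 2 n ≤ n := Nat.pow_log_le_self 2 (by omega)
  omega

lemma card_subgroup_half {G : Type*} [AddCommGroup G] [Finite G] {M : AddSubgroup G}
    (hM : M ≠ ⊤) : 2 * Nat.card M ≤ Nat.card G := by
  have h1 := M.card_mul_index
  have h2 : M.index ≠ 1 := fun h => hM (AddSubgroup.index_eq_one.1 h)
  have h3 : M.index ≠ 0 := AddSubgroup.index_ne_zero_of_finite
  have h4 : 2 ≤ M.index := by omega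
  calc 2 * Nat.card M = Nat.card M * 2 := mul_comm _ _
    _ ≤ Nat.card M * M.index := Nat.mul_le_mul_left _ h4
    _ = _ := h1

lemma dense_cover_aux {Q G : Type*} [AddCommGroup Q] [AddCommGroup G] [Fintype G]
    (i : G →+ Q) (hi : Function.Injective i) (L : AddSubgroup Q) (hL : i.range = L)
    (P : Finset Q) (a' : Q) (n m b : ℕ)
    (hn : 1740 * (Nat.log 2 n + 1) ^ 2 ≤ n) (hn2 : 1740 ≤ n) (hb : b = 58 * (Nat.log 2 n + 1))
    (hm : Fintype.card G = m) (hle : m ≤ n)
    (hPc : P.card ≤ (P.filter (fun x => x - a' ∈ L)).card +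
      b * (Nat.log 2 n - Nat.log 2 m))
    (hmin : ∀ (M' : AddSubgroup Q) (a'' : Q), Nat.card M' < m →
      ¬ (P.card ≤ (P.filter (fun x => x - a'' ∈ M')).card +
        b * (Nat.log 2 n - Nat.log 2 (Nat.card M'))))
    (hd : n ≤ 5 * P.card) :
    18 ≤ m ∧ ∃ W ⊆ P, ∃ q, (∀ z ∈ L, ∃ B ⊆ W, ∑ x ∈ B, x = q + z) ∧
      2 ^ W.card ≤ m ^ 116 := by
  have hlog : Nat.log 2 m ≤ Nat.log 2 n := Nat.log_mono_right hle
  have hbl : b * (Nat.log 2 n - Nat.log 2 m) ≤ b * Nat.log 2 n :=
    Nat.mul_le_mul_left _ (Nat.sub_le _ _)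
  have hkey : n + 6 * b * (Nat.log 2 n + 1) ≤ 6 * P.card := by
    have h1 : 5 * (6 * b * (Nat.log 2 n + 1)) = 1740 * (Nat.log 2 n + 1) ^ 2 := by
      rw [hb]; ring
    omega
  have hkey2 : 6 * b * (Nat.log 2 n + 1) = 6 * (b * Nat.log 2 n) + 6 * b := by ring
  set P' : Finset G := univ.filter fun l : G => a' + i l ∈ P with hP'
  have hinj : Function.Injective fun l : G => a' + i l := fun x y h =>
    hi (add_left_cancel h)
  have himg : P'.image (fun l : G => a' + i l) = P.filter (fun x => x - a' ∈ L) := by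
    ext x
    simp only [hP', mem_image, mem_filter, mem_univ, true_and]
    constructor
    · rintro ⟨l, hl, rfl⟩
      exact ⟨hl, by rw [← hL]; exact ⟨l, by simp⟩⟩
    · rintro ⟨hx, hxL⟩
      rw [← hL] at hxL
      obtain ⟨l, hl⟩ := hxL
      refine ⟨l, ?_, ?_⟩
      · rw [hl]; simpa using hx
      · rw [hl]; simp
  have hP'c : P'.card = (P.filter (fun x => x - a' ∈ L)).card := by
    rw [← himg, card_image_of_injective _ hinj]
  have hmP : P'.card ≤ m := by rw [← hm]; exact card_le_univ _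
  have hm18 : 18 ≤ m := by omega
  refine ⟨hm18, ?_⟩
  set bL := 58 * (Nat.log 2 (Fintype.card G) + 1) with hbL
  have hbLb : bL ≤ b := by
    rw [hbL, hb, hm]; omega
  obtain ⟨W', hW'P, hW'c, p, hcov⟩ := cover_all P' (by rw [hm]; exact hm18) bL hbL (by
      intro U hU hUc
      by_contra hne
      set Mc := AddSubgroup.closure (((P' \ U) - (P' \ U) : Finset G) : Set G) with hMc
      have hPU : P'.card ≤ (P' \ U).card + U.card := by
        rw [card_sdiff_of_subset hU]; omega
      have hne' : (P' \ U).Nonempty := by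
        rw [← card_pos]; omega
      obtain ⟨l0, hl0⟩ := hne'
      have hMhalf := card_subgroup_half hne
      rw [Nat.card_eq_fintype_card (α := G), hm] at hMhalf
      have hMmap : Nat.card (Mc.map i) = Nat.card Mc :=
        (Nat.card_congr (Mc.equivMapOfInjective i hi).toEquiv).symm
      have hMpos : 0 < Nat.card Mc := Nat.card_pos
      refine hmin (Mc.map i) (a' + i l0) (by omega) ?_
      have hsub : (P' \ U).image (fun l : G => a' + i l) ⊆
          P.filter (fun x => x - (a' + i l0) ∈ Mc.map i) := by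
        intro x hx
        obtain ⟨l, hl, rfl⟩ := mem_image.1 hx
        rw [mem_filter]
        refine ⟨?_, ?_⟩
        · have := (mem_sdiff.1 hl).1
          rw [hP', mem_filter] at this
          exact this.2
        · rw [AddSubgroup.mem_map]
          refine ⟨l - l0, ?_, ?_⟩
          · rw [hMc]
            apply AddSubgroup.subset_closure
            exact_mod_cast sub_mem_sub hl hl0
          · simp
      have h1 := card_le_card hsub
      rw [card_image_of_injective _ hinj] at h1
      have h2 : Nat.log 2 (Nat.card (Mc.map i)) + 1 ≤ Nat.log 2 m := by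
        rw [hMmap, ← Nat.log_mul_base (by norm_num) (by omega)]
        exact Nat.log_mono_right (by omega)
      have h3 : b * (Nat.log 2 n - Nat.log 2 m) + b ≤
          b * (Nat.log 2 n - Nat.log 2 (Nat.card (Mc.map i))) := by
        rw [← Nat.mul_succ]
        exact Nat.mul_le_mul_left _ (by omega)
      omega) (by
      intro U hU hUc
      rw [hm]
      have hPU : P'.card ≤ (P' \ U).card + U.card := by
        rw [card_sdiff_of_subset hU]; omega
      omega)
  refine ⟨W'.image (fun l : G => a' + i l), ?_, p • a', ?_, ?_⟩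
  · intro x hx
    obtain ⟨l, hl, rfl⟩ := mem_image.1 hx
    have := hW'P hl
    rw [hP', mem_filter] at this
    exact this.2
  · intro z hz
    rw [← hL] at hz
    obtain ⟨z', rfl⟩ := hz
    obtain ⟨B, hB, hBp, hBs⟩ := hcov z'
    refine ⟨B.image (fun l : G => a' + i l), image_subset_image hB, ?_⟩
    rw [sum_image (fun x _ y _ h => hinj h), sum_add_distrib, sum_const, hBp]
    congr 1
    rw [← map_sum, hBs]
  · rw [card_image_of_injective _ hinj]
    have h1 : 4 ≤ Nat.log 2 m := (Nat.le_log_iff_pow_le (by norm_num) (by omega)).2 (by omega)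
    calc 2 ^ W'.card ≤ 2 ^ (Nat.log 2 m * 116) := by
          apply Nat.pow_le_pow_right (by norm_num)
          rw [hm] at hbL
          omega
      _ = (2 ^ Nat.log 2 m) ^ 116 := by rw [pow_mul]
      _ ≤ m ^ 116 := Nat.pow_le_pow_left (Nat.pow_log_le_self 2 (by omega)) _

/-- A dense subset of a coset of a large subgroup has few elements whose subset sums cover a coset
of a nontrivial subgroup. -/
lemma dense_cover {Q : Type*} [AddCommGroup Q] [Fintype Q] (Hh : AddSubgroup Q) (P : Finset Q)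
    (a : Q) (hP : ∀ x ∈ P, x - a ∈ Hh) (hn : 2 ^ 20 ≤ Nat.card Hh)
    (hd : Nat.card Hh ≤ 5 * P.card) :
    ∃ L : AddSubgroup Q, L ≠ ⊥ ∧ ∃ W ⊆ P, ∃ q, (∀ z ∈ L, ∃ B ⊆ W, ∑ x ∈ B, x = q + z) ∧
      2 ^ W.card ≤ Nat.card L ^ 116 := by
  generalize hn' : Nat.card Hh = n at hn hd
  have hex : ∃ m, ∃ L : AddSubgroup Q, ∃ a', Nat.card L = m ∧
      P.card ≤ (P.filter (fun x => x - a' ∈ L)).card +
        (58 * (Nat.log 2 n + 1)) * (Nat.log 2 n - Nat.log 2 m) := by
    refine ⟨n, Hh, a, hn', ?_⟩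
    have : P.filter (fun x => x - a ∈ Hh) = P := filter_true_of_mem hP
    rw [this]
    omega
  have hle : Nat.find hex ≤ n := Nat.find_min' hex ⟨Hh, a, hn', by
    have : P.filter (fun x => x - a ∈ Hh) = P := filter_true_of_mem hP
    rw [this]
    omega⟩
  obtain ⟨L, a', hLc, hPc⟩ := Nat.find_spec hex
  have hnum := num_aux2 n hn
  obtain ⟨h18, W, hW, q, hcov, hcost⟩ := dense_cover_aux (G := L) L.subtype
    Subtype.val_injective L L.range_subtype P a' n (Nat.find hex) _ hnum
    (le_trans (by norm_num) hn) rfl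
    (by rw [← Nat.card_eq_fintype_card]; exact hLc) hle hPc
    (fun M' a'' hlt hcon => Nat.find_min hex hlt ⟨M', a'', rfl, hcon⟩) hd
  refine ⟨L, ?_, W, hW, q, hcov, by rw [hLc]; exact hcost⟩
  rintro rfl
  rw [← hLc] at h18
  simp at h18

end Pool.Agent.Lib.MP_0b126a_co
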