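import Pool.Agent.Lib.MP_0b126a_co.Dense

open Finset
open scoped Classical Pointwise

namespace Pool.Agent.Lib.MP_0b126a_co

variable {G Q : Type*} [AddCommGroup G] [AddCommGroup Q]

/-- few elements of `A` have subset sums whose images cover a coset of a nontrivial subgroup -/
def Cov (φ : G →+ Q) (A : Finset G) (w : ℕ) : Prop :=
  ∃ L : AddSubgroup Q, L ≠ ⊥ ∧ ∃ W ⊆ A, (∃ q, ∀ z ∈ L, ∃ B ⊆ W, φ (∑ x ∈ B, x) = q + z) ∧
    2 ^ W.card ≤ Nat.card L ^ w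

lemma Cov.mono {φ : G →+ Q} {A A' : Finset G} {w w' : ℕ} [Finite Q] (h : Cov φ A w)
    (hA : A ⊆ A') (hw : w ≤ w') : Cov φ A' w' := by
  obtain ⟨L, hL, W, hW, hq, hc⟩ := h
  exact ⟨L, hL, W, hW.trans hA, hq, hc.trans (Nat.pow_le_pow_right Nat.card_pos hw)⟩

lemma gadget {φ : G →+ Q} {a₁ a₂ : Q} {x₁ x₂ : G} (hx : x₁ ≠ x₂)
    (h₁ : a₁ = 0 ∨ φ x₁ = a₁ ∨ φ x₁ = -a₁) (h₂ : a₂ = 0 ∨ φ x₂ = a₂ ∨ φ x₂ = -a₂) :
    ∃ X Y : Finset G, X ⊆ {x₁, x₂} ∧ Y ⊆ {x₁, x₂} ∧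
      φ (∑ x ∈ X, x) = φ (∑ x ∈ Y, x) + (a₁ - a₂) := by
  have s1 : ({x₁} : Finset G) ⊆ {x₁, x₂} := by simp
  have s2 : ({x₂} : Finset G) ⊆ {x₁, x₂} := by simp
  have e2 : ∑ x ∈ ({x₁, x₂} : Finset G), x = x₁ + x₂ := sum_pair hx
  rcases h₁ with h₁ | h₁ | h₁ <;> rcases h₂ with h₂ | h₂ | h₂
  · exact ⟨∅, ∅, by simp, by simp, by simp [h₁, h₂]⟩
  · exact ⟨∅, {x₂}, by simp, s2, by simp [h₁, h₂]⟩
  · exact ⟨{x₂}, ∅, s2, by simp, by simp [h₁, h₂]⟩
  · exact ⟨{x₁}, ∅, s1, by simp, by simp [h₁, h₂]⟩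
  · exact ⟨{x₁}, {x₂}, s1, s2, by simp [h₁, h₂]⟩
  · exact ⟨{x₁, x₂}, ∅, Subset.refl _, by simp, by
      rw [e2, map_add, h₁, h₂]; simp [sub_eq_add_neg]⟩
  · exact ⟨∅, {x₁}, by simp, s1, by simp [h₁, h₂]⟩
  · exact ⟨∅, {x₁, x₂}, by simp, Subset.refl _, by
      rw [e2, map_add, h₁, h₂]; simp⟩
  · exact ⟨{x₂}, {x₁}, s2, s1, by
      simp only [sum_singleton, h₁, h₂]; abel⟩

/-- repeated gadgets with the same difference `d` -/
lemma gadgets_cover [Finite Q] {φ : G →+ Q} {A : Finset G} {d : Q} (hd : d ≠ 0) (w : ℕ)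
    (hw : 2 * addOrderOf d ≤ w)
    (hgad : ∀ W ⊆ A, W.card ≤ 2 * (addOrderOf d - 2) → ∃ X Y : Finset G, X ⊆ A \ W ∧ Y ⊆ A \ W ∧
      (X ∪ Y).card ≤ 2 ∧ φ (∑ x ∈ X, x) = φ (∑ x ∈ Y, x) + d) :
    Cov φ A w := by
  have ho : 2 ≤ addOrderOf d := by
    have h1 : 0 < addOrderOf d := addOrderOf_pos d
    have h2 : addOrderOf d ≠ 1 := fun h => hd (AddMonoid.addOrderOf_eq_one_iff.1 h)
    omega
  have key : ∀ m, m ≤ addOrderOf d - 1 → ∃ W ⊆ A, W.card ≤ 2 * m ∧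
      ∃ q, ∀ j ≤ m, ∃ B ⊆ W, φ (∑ x ∈ B, x) = q + j • d := by
    intro m
    induction m with
    | zero =>
      intro _
      exact ⟨∅, empty_subset _, by simp, 0, fun j hj => ⟨∅, by simp, by
        have : j = 0 := by omega
        simp [this]⟩⟩
    | succ m ih =>
      intro hm
      obtain ⟨W, hW, hWc, q, hq⟩ := ih (by omega)
      obtain ⟨X, Y, hX, hY, hXY, hs⟩ := hgad W hW (by omega)
      refine ⟨W ∪ (X ∪ Y), union_subset hW (union_subset (hX.trans sdiff_subset)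
        (hY.trans sdiff_subset)), ?_, q + φ (∑ x ∈ Y, x), ?_⟩
      · have := card_union_le W (X ∪ Y)
        omega
      · intro j hj
        rcases Nat.eq_zero_or_pos j with rfl | hjpos
        · obtain ⟨B, hB, hBs⟩ := hq 0 (Nat.zero_le _)
          refine ⟨B ∪ Y, union_subset_union hB subset_union_right, ?_⟩
          rw [sum_union, map_add, hBs]
          · simp
          · exact disjoint_of_subset_left hB (disjoint_of_subset_right hY disjoint_sdiff)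
        · obtain ⟨B, hB, hBs⟩ := hq (j - 1) (by omega)
          refine ⟨B ∪ X, union_subset_union hB subset_union_left, ?_⟩
          rw [sum_union, map_add, hBs, hs]
          · have : j = (j - 1) + 1 := by omega
            conv_rhs => rw [this, add_nsmul, one_nsmul]
            abel
          · exact disjoint_of_subset_left hB (disjoint_of_subset_right hX disjoint_sdiff)
  obtain ⟨W, hW, hWc, q, hq⟩ := key _ le_rfl
  refine ⟨AddSubgroup.zmultiples d, ?_, W, hW, ⟨q, ?_⟩, ?_⟩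
  · intro h
    rw [AddSubgroup.zmultiples_eq_bot] at h
    exact hd h
  · intro z hz
    rw [mem_zmultiples_iff_mem_range_addOrderOf, mem_image] at hz
    obtain ⟨j, hj, rfl⟩ := hz
    rw [mem_range] at hj
    exact hq j (by omega)
  · rw [Nat.card_zmultiples]
    calc 2 ^ W.card ≤ 2 ^ w := Nat.pow_le_pow_right (by norm_num) (by omega)
      _ ≤ addOrderOf d ^ w := Nat.pow_le_pow_left ho _

end Pool.Agent.Lib.MP_0b126a_co
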