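import Pool.Agent.Lib.MP_0b126a_co.Claim

open Finset
open scoped Classical Pointwise

namespace Pool.Agent.Lib.MP_0b126a_co

set_option maxHeartbeats 1000000 in
/-- the main estimate, for a surjection whose kernel is (a translate of) a covered coset -/
theorem core {G Q : Type*} [AddCommGroup G] [AddCommGroup Q] [Fintype G] [Fintype Q]
    {φ : G →+ Q} (hφ : Function.Surjective φ) {S W : Finset G} {g : G} {w K : ℕ}
    {a ε γ γ1 k : ℝ} (ha : 0 < a) (hε : 0 < ε) (hε1 : ε < 1 / 8) (hγ0 : 0 < γ)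
    (hγ : 2 * γ1 ≤ 1 - 8 * ε) (hγ2 : γ1 ≤ 2 * a * (1 - 8 * ε)) (hγ3 : γ ≤ γ1 * (1 - 8 * ε))
    (hP : 4 ≤ a * ε ^ 3 * k)
    (hS : ZSF S) (hgen : AddSubgroup.closure (S : Set G) = ⊤)
    (hW : W ⊆ S) (hg : ∀ z ∈ φ.ker, g + z ∈ SS W) (hncov : ¬ Cov φ (S \ W) w)
    (hSk : (S.card : ℝ) = k) (hWc : (W.card : ℝ) ≤ ε * k)
    (hprop : ∀ A : Finset G, ZSF A → K ≤ A.card → a * (A.card : ℝ) ^ 2 ≤ (SS A).card)
    (hK : (K : ℝ) + 2 ≤ ε * k / 2)
    (hε2k : 1 ≤ ε ^ 2 * k)
    (hw : 2 ^ 21 ≤ w) {U0 M N : ℕ} (hU0 : 10 * 2 ^ 40 ≤ U0) (hMU : 2 * U0 ≤ M) (hw2 : 2 * U0 ≤ w)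
    (hM : (U0 * M : ℝ) ≤ ε ^ 2 * k) (hN : 2 / (a * ε ^ 2) ≤ N) (hw3 : 2 * N ≤ w)
    (hNk : (N * (2 * N) : ℝ) ≤ ε * k) :
    γ * k ^ 2 ≤ (SS S).card := by
  by_contra hlt
  push Not at hlt
  set h : ℝ := ((HF φ.ker).card : ℝ) with hhdef
  have hh0 : 0 ≤ h := by positivity
  have hk0 : 0 < k := by
    by_contra hcon
    push Not at hcon
    have : a * ε ^ 3 * k ≤ 0 := mul_nonpos_of_nonneg_of_nonpos (by positivity) hcon
    linarith
  have hεk : 0 < ε * k := by positivity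
  have hεk1 : 1 ≤ ε * k := by
    have : (K : ℝ) ≥ 0 := by positivity
    linarith
  have hγ1 : 0 < γ1 := by
    by_contra hcon
    push Not at hcon
    have : γ1 * (1 - 8 * ε) ≤ 0 := mul_nonpos_of_nonpos_of_nonneg hcon (by linarith)
    linarith
  -- everything of size at least `(1 - 4 ε) k` lying in a proper subgroup gives a contradiction
  have hdouble : ∀ A ⊆ S, (1 - 4 * ε) * k ≤ (A.card : ℝ) → ¬ (2 * (SS A).card ≤ (SS S).card) := by
    intro A hA hc h2
    have h1 : a * (A.card : ℝ) ^ 2 ≤ (SS A).card := by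
      refine hprop A (hS.mono hA) ?_
      have h9 : ε * k ≤ 1 / 8 * k := mul_le_mul_of_nonneg_right hε1.le hk0.le
      have : (K : ℝ) ≤ A.card := by linarith
      exact_mod_cast this
    have h3 : (2 : ℝ) * (SS A).card ≤ (SS S).card := by exact_mod_cast h2
    have h4 : ((1 - 4 * ε) * k) ^ 2 ≤ (A.card : ℝ) ^ 2 :=
      pow_le_pow_left₀ (mul_nonneg (by linarith) hk0.le) hc 2
    have h5 : (1 - 8 * ε) * k ^ 2 ≤ ((1 - 4 * ε) * k) ^ 2 := by
      rw [mul_pow]
      exact mul_le_mul_of_nonneg_right (by nlinarith) (by positivity)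
    have h6 : γ ≤ γ1 := by nlinarith
    have h7 : γ * k ^ 2 ≤ 2 * a * (1 - 8 * ε) * k ^ 2 :=
      mul_le_mul_of_nonneg_right (h6.trans hγ2) (by positivity)
    have h8 : a * ((1 - 8 * ε) * k ^ 2) ≤ a * (A.card : ℝ) ^ 2 :=
      mul_le_mul_of_nonneg_left (h5.trans h4) ha.le
    linarith
  set E0 := (S \ W).filter (fun x => φ x ≠ 0) with hE0
  set SK := (S \ W).filter (fun x => ¬ φ x ≠ 0) with hSKdef
  have hE0sub : E0 ⊆ S \ W := filter_subset _ _
  have hSKsub : SK ⊆ S \ W := filter_subset _ _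
  have hcardW : ((S \ W).card : ℝ) = k - W.card := by
    rw [card_sdiff_of_subset hW, Nat.cast_sub (card_le_card hW), hSk]
  have hsplit : (E0.card : ℝ) + SK.card = (S \ W).card := by
    exact_mod_cast card_filter_add_card_filter_not (s := S \ W) (fun x => φ x ≠ 0)
  have hflexE0 := flex_le hW hg hE0sub
  have hSKker : SK.Nonempty → (HF φ.ker).card + (SS SK).card ≤ (SS S).card ∧
      (SS SK).card ≤ (HF φ.ker).card := by
    intro hne
    refine flex_ker hS hW hg hSKsub ?_ hne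
    intro x hx
    have := (mem_filter.1 hx).2
    push Not at this
    exact this
  -- `h` is small
  have hhs : h ≤ a * ε ^ 2 * k ^ 2 / 2 := by
    by_contra hbig
    push Not at hbig
    have h1 : h * (Sq φ E0).card ≤ (SS S).card := by
      rw [hhdef]
      exact_mod_cast hflexE0
    have h2 : (Sq φ E0).card ≤ N := by
      have h3 : h * ((Sq φ E0).card : ℝ) < k ^ 2 := by
        have : γ * k ^ 2 ≤ 1 * k ^ 2 := by
          apply mul_le_mul_of_nonneg_right _ (by positivity)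
          nlinarith
        linarith
      have h4 : (a * ε ^ 2 * k ^ 2 / 2) * ((Sq φ E0).card : ℝ) ≤ h * (Sq φ E0).card :=
        mul_le_mul_of_nonneg_right hbig.le (by positivity)
      have h5 : (a * ε ^ 2) * ((Sq φ E0).card : ℝ) < 2 := by
        have h6 : k ^ 2 * ((a * ε ^ 2) * ((Sq φ E0).card : ℝ)) < k ^ 2 * 2 := by linarith
        exact lt_of_mul_lt_mul_left h6 (by positivity)
      have h6 : ((Sq φ E0).card : ℝ) < 2 / (a * ε ^ 2) := by
        rw [lt_div_iff₀ (by positivity)]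
        linarith
      have h7 : ((Sq φ E0).card : ℝ) < N := lt_of_lt_of_le h6 hN
      exact_mod_cast h7.le
    have h3 := few_of_card_le (φ := φ) (A := E0) (N := N) (w := w)
      (fun x hx => (mem_filter.1 hx).2) h2 hw3 (fun hc => hncov (hc.mono hE0sub le_rfl))
    have h4 : (E0.card : ℝ) ≤ N * (2 * N) := by exact_mod_cast h3
    have h5 : (1 - 2 * ε) * k ≤ (SK.card : ℝ) := by linarith
    have hSKne : SK.Nonempty := by
      rw [← card_pos]
      have : (0 : ℝ) < SK.card := lt_of_lt_of_le (mul_pos (by linarith) hk0) h5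
      exact_mod_cast this
    obtain ⟨h6, h7⟩ := hSKker hSKne
    exact hdouble SK (hSKsub.trans sdiff_subset) (by linarith) (by omega)
  -- `SK` is small
  have hSKs : (SK.card : ℝ) ≤ ε * k := by
    by_contra hbig
    push Not at hbig
    have hSKne : SK.Nonempty := by
      rw [← card_pos]
      have : (0 : ℝ) < SK.card := by linarith
      exact_mod_cast this
    obtain ⟨h6, h7⟩ := hSKker hSKne
    have h8 : a * (SK.card : ℝ) ^ 2 ≤ (SS SK).card := by
      refine hprop SK (hS.mono (hSKsub.trans sdiff_subset)) ?_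
      have : (K : ℝ) ≤ SK.card := by linarith
      exact_mod_cast this
    have h9 : ((SS SK).card : ℝ) ≤ h := by
      rw [hhdef]
      exact_mod_cast h7
    have h10 : (ε * k) ^ 2 ≤ (SK.card : ℝ) ^ 2 := pow_le_pow_left₀ hεk.le hbig.le 2
    have h11 : a * (ε * k) ^ 2 ≤ a * (SK.card : ℝ) ^ 2 := mul_le_mul_of_nonneg_left h10 ha.le
    have h12 : 0 < a * (ε * k) ^ 2 := by positivity
    have h13 : a * (ε * k) ^ 2 = a * ε ^ 2 * k ^ 2 := by ring
    linarith
  -- choose R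
  have hE0c : (1 - 2 * ε) * k ≤ (E0.card : ℝ) := by linarith
  obtain ⟨R, hR, hRc⟩ := exists_subset_card_eq (s := E0) (n := ⌈ε * k⌉₊) (by
    have h1 : (⌈ε * k⌉₊ : ℝ) < ε * k + 1 := Nat.ceil_lt_add_one hεk.le
    have h3 : ε * k ≤ 1 / 8 * k := mul_le_mul_of_nonneg_right hε1.le hk0.le
    have h2 : (⌈ε * k⌉₊ : ℝ) ≤ E0.card := by linarith
    exact_mod_cast h2)
  have hRc1 : ε * k ≤ (R.card : ℝ) := by
    rw [hRc]; exact Nat.le_ceil _
  have hRc2 : (R.card : ℝ) ≤ 2 * (ε * k) := by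
    rw [hRc]
    have h1 : (⌈ε * k⌉₊ : ℝ) < ε * k + 1 := Nat.ceil_lt_add_one hεk.le
    linarith
  set E := E0 \ R with hE
  have hEc : (1 - 4 * ε) * k ≤ (E.card : ℝ) := by
    rw [hE, card_sdiff_of_subset hR, Nat.cast_sub (card_le_card hR)]
    linarith
  have hEsub : E ⊆ S \ W := sdiff_subset.trans hE0sub
  -- generation
  have hgenE : AddSubgroup.closure (E.image φ : Set Q) = ⊤ := by
    by_contra hne
    have hne' : (AddSubgroup.closure (E.image φ : Set Q)).comap φ ≠ ⊤ := by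
      intro hcon
      apply hne
      rw [← top_le_iff]
      intro q _
      obtain ⟨x, rfl⟩ := hφ q
      have : x ∈ (AddSubgroup.closure (E.image φ : Set Q)).comap φ := by
        rw [hcon]; trivial
      exact this
    obtain ⟨x, hx, hxL⟩ := exists_notMem_of_closure hgen hne'
    have h1 := doubling (φ := AddMonoidHom.id G) (A := S) (A' := E)
      ((AddSubgroup.closure (E.image φ : Set Q)).comap φ) (hEsub.trans sdiff_subset)
      (fun y hy => by
        rw [AddMonoidHom.id_apply, AddSubgroup.mem_comap]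
        exact AddSubgroup.subset_closure (by exact_mod_cast mem_image_of_mem φ hy)) hx hxL
    exact hdouble E (hEsub.trans sdiff_subset) hEc h1
  have hcl := claim (φ := φ) (S := S) (W := W) (R := R) (g := g) (w := w) (K := K) ha hε hε1 hγ1
    hγ hγ2 hP hS hW hg hncov hSk.le (hR.trans hE0sub) hRc1 hprop hhs hK hε2k hw hU0 hMU hw2 hM
    E.card E hEsub sdiff_disjoint (fun x hx => (mem_filter.1 (sdiff_subset hx)).2) hgenE rfl
  have hfE := flex_le hW hg hEsub
  have h1 : h * (Sq φ E).card ≤ (SS S).card := by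
    rw [hhdef]
    exact_mod_cast hfE
  have h2 : ((1 - 4 * ε) * k) ^ 2 ≤ (E.card : ℝ) ^ 2 :=
    pow_le_pow_left₀ (mul_nonneg (by linarith) hk0.le) hEc 2
  have h3 : (1 - 8 * ε) * k ^ 2 ≤ ((1 - 4 * ε) * k) ^ 2 - ε ^ 2 * k ^ 2 := by
    have : ((1 - 4 * ε) * k) ^ 2 - ε ^ 2 * k ^ 2 - (1 - 8 * ε) * k ^ 2 = 15 * (ε * k) ^ 2 := by
      ring
    have h4 : 0 ≤ 15 * (ε * k) ^ 2 := by positivity
    linarith
  have h4 : γ1 * ((1 - 8 * ε) * k ^ 2) ≤ γ1 * ((E.card : ℝ) ^ 2 - ε ^ 2 * k ^ 2) :=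
    mul_le_mul_of_nonneg_left (by linarith) hγ1.le
  have h5 : γ * k ^ 2 ≤ γ1 * (1 - 8 * ε) * k ^ 2 :=
    mul_le_mul_of_nonneg_right hγ3 (by positivity)
  linarith

end Pool.Agent.Lib.MP_0b126a_co
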