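import Pool.Agent.Lib.MP_0b126a_co.Iterate

open Finset Filter Topology
open scoped Classical Pointwise

namespace Pool.Agent.Lib.MP_0b126a_co

/-- asymptotic lower bound with constant `a` -/
def PropA (a : ℝ) : Prop := ∃ K : ℕ, ∀ (G : Type) [AddCommGroup G] [Fintype G] (S : Finset G),
  ZSF S → K ≤ S.card → a * (S.card : ℝ) ^ 2 ≤ (SS S).card

lemma ev_lin {c d : ℝ} (hd : 0 < d) : ∀ᶠ k : ℕ in atTop, c ≤ d * (k : ℝ) :=
  (tendsto_natCast_atTop_atTop.const_mul_atTop hd).eventually_ge_atTop c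

lemma ev_pow {ε : ℝ} (hε : 0 < ε) (w : ℕ) :
    ∀ᶠ k : ℕ in atTop, ∀ m : ℕ, 2 ^ m ≤ k ^ (2 * w) → (m : ℝ) ≤ ε * k := by
  have hlog : 0 < Real.log 2 := Real.log_pos (by norm_num)
  have h1 := (isLittleO_pow_exp_pos_mul_atTop (k := 2 * w) (b := ε * Real.log 2)
    (by positivity)).bound (c := 1) one_pos
  have h2 := (tendsto_natCast_atTop_atTop (R := ℝ)).eventually h1
  filter_upwards [h2] with k hk m hm
  rw [one_mul, Real.norm_of_nonneg (by positivity), Real.norm_of_nonneg (Real.exp_pos _).le] at hk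
  have h3 : (2 : ℝ) ^ m ≤ (k : ℝ) ^ (2 * w) := by exact_mod_cast hm
  have h4 : (2 : ℝ) ^ m ≤ Real.exp (ε * Real.log 2 * k) := h3.trans hk
  have h5 := Real.log_le_log (by positivity) h4
  rw [Real.log_exp, Real.log_pow] at h5
  have h6 : Real.log 2 * (m : ℝ) ≤ Real.log 2 * (ε * k) := by linarith
  exact le_of_mul_le_mul_left h6 hlog

lemma propA_step {a γ : ℝ} (ha : 0 < a) (hprop : PropA a) (hγ0 : 0 < γ) (hγ1 : γ < 1 / 2)
    (hγ2 : γ < 2 * a) : PropA γ := by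
  obtain ⟨K, hK⟩ := hprop
  -- parameters
  obtain ⟨γ1, h1, h2, h3⟩ : ∃ γ1, γ < γ1 ∧ γ1 < 1 / 2 ∧ γ1 < 2 * a := by
    obtain ⟨γ1, h, h'⟩ := exists_between (lt_min hγ1 hγ2)
    exact ⟨γ1, h, lt_of_lt_of_le h' (min_le_left _ _), lt_of_lt_of_le h' (min_le_right _ _)⟩
  have hγ10 : 0 < γ1 := hγ0.trans h1
  set ρ := max (2 * γ1) (max (γ1 / (2 * a)) (γ / γ1)) with hρ
  have hρ1 : ρ < 1 := by
    refine max_lt (by linarith) (max_lt ?_ ?_)
    · rw [div_lt_one (by positivity)]; exact h3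
    · rw [div_lt_one hγ10]; exact h1
  have hρ0 : 0 < ρ := lt_of_lt_of_le (by positivity) (le_max_left _ _)
  set ε := (1 - ρ) / 9 with hε
  have hε0 : 0 < ε := by rw [hε]; linarith
  have hε1 : ε < 1 / 8 := by rw [hε]; linarith
  have hερ : ρ ≤ 1 - 8 * ε := by rw [hε]; linarith
  have hγa : 2 * γ1 ≤ 1 - 8 * ε := (le_max_left _ _).trans hερ
  have hγb : γ1 ≤ 2 * a * (1 - 8 * ε) := by
    have : γ1 / (2 * a) ≤ 1 - 8 * ε :=
      ((le_max_left _ _).trans (le_max_right _ _)).trans hερ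
    rw [div_le_iff₀ (by positivity)] at this
    linarith
  have hγc : γ ≤ γ1 * (1 - 8 * ε) := by
    have : γ / γ1 ≤ 1 - 8 * ε :=
      ((le_max_right _ _).trans (le_max_right _ _)).trans hερ
    rw [div_le_iff₀ hγ10] at this
    linarith
  obtain ⟨N, hN⟩ := exists_nat_ge (2 / (a * ε ^ 2))
  obtain ⟨U0, hU0⟩ : ∃ U0 : ℕ, 10 * 2 ^ 40 ≤ U0 := ⟨_, le_rfl⟩
  obtain ⟨w, hw1, hw2, hw3⟩ : ∃ w : ℕ, 2 ^ 21 ≤ w ∧ 2 * U0 ≤ w ∧ 2 * N ≤ w :=
    ⟨2 ^ 21 + 2 * U0 + 2 * N, by omega, by omega, by omega⟩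
  have hev : ∀ᶠ k : ℕ in atTop, (4 ≤ a * ε ^ 3 * (k : ℝ)) ∧ ((K : ℝ) + 2 ≤ ε / 2 * (k : ℝ)) ∧
      (1 ≤ ε ^ 2 * (k : ℝ)) ∧ ((U0 * (2 * U0 : ℕ) : ℝ) ≤ ε ^ 2 * (k : ℝ)) ∧
      ((N * (2 * N) : ℝ) ≤ ε * (k : ℝ)) ∧
      (∀ m : ℕ, 2 ^ m ≤ k ^ (2 * w) → (m : ℝ) ≤ ε * k) := by
    filter_upwards [ev_lin (c := 4) (d := a * ε ^ 3) (by positivity),
      ev_lin (c := (K : ℝ) + 2) (d := ε / 2) (by positivity),
      ev_lin (c := 1) (d := ε ^ 2) (by positivity),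
      ev_lin (c := (U0 * (2 * U0 : ℕ) : ℝ)) (d := ε ^ 2) (by positivity),
      ev_lin (c := (N * (2 * N) : ℝ)) (d := ε) (by positivity), ev_pow hε0 w]
      with k e1 e2 e3 e4 e5 e6
    exact ⟨e1, e2, e3, e4, e5, e6⟩
  obtain ⟨K', hK'⟩ := eventually_atTop.1 hev
  refine ⟨K', ?_⟩
  intro G0 _ _ S0 hS0 hk0
  obtain ⟨e1, e2, e3, e4, e5, e6⟩ := hK' _ hk0
  obtain ⟨G, _, _, S, hSc, hSS, hz, hgen⟩ := to_closure S0
  have hS : ZSF S := hz hS0
  rw [← hSS, ← hSc]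
  rw [← hSc] at e1 e2 e3 e4 e5 e6
  by_contra hlt
  push Not at hlt
  obtain ⟨K0, ⟨W, hW, ⟨g, hg⟩, hWc⟩, hmax⟩ := exists_max S w
  have : Fintype (G ⧸ K0) := Fintype.ofFinite _
  have hker : (QuotientAddGroup.mk' K0).ker = K0 := QuotientAddGroup.ker_mk' K0
  have hsurj : Function.Surjective (QuotientAddGroup.mk' K0) := QuotientAddGroup.mk'_surjective K0
  have hncov : ¬ Cov (QuotientAddGroup.mk' K0) (S \ W) w := by
    intro hc
    obtain ⟨K1, hK1, hK1c⟩ := FP_ext (S := S) (W := W) (w := w) hsurj hW (g := g)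
      (by rw [hker]; exact hg) (by rw [hker]; exact hWc) hc
    rw [hker] at hK1c
    have := hmax K1 hK1
    omega
  -- `W` is small
  have hWs : (W.card : ℝ) ≤ ε * S.card := by
    apply e6
    have hK0 : Nat.card K0 ≤ (SS S).card := by
      rw [← card_HF, ← card_shift (HF K0) g]
      refine card_le_card ?_
      intro z hz
      obtain ⟨κ, hκ, rfl⟩ := mem_image.1 hz
      rw [mem_HF] at hκ
      rw [add_comm]
      exact Sq_mono hW (hg κ hκ)
    have hK0' : Nat.card K0 ≤ S.card ^ 2 := by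
      have h4 : ((Nat.card K0 : ℕ) : ℝ) ≤ ((S.card ^ 2 : ℕ) : ℝ) := by
        push_cast
        have h5 : ((Nat.card K0 : ℕ) : ℝ) ≤ (SS S).card := by exact_mod_cast hK0
        have h6 : γ * (S.card : ℝ) ^ 2 ≤ 1 * (S.card : ℝ) ^ 2 :=
          mul_le_mul_of_nonneg_right (by linarith) (by positivity)
        linarith
      exact_mod_cast h4
    calc 2 ^ W.card ≤ Nat.card K0 ^ w := hWc
      _ ≤ (S.card ^ 2) ^ w := Nat.pow_le_pow_left hK0' w
      _ = S.card ^ (2 * w) := by rw [pow_mul]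
  have := core (φ := QuotientAddGroup.mk' K0) hsurj (S := S) (W := W) (g := g) (w := w) (K := K)
    (a := a) (ε := ε) (γ := γ) (γ1 := γ1) (k := S.card) ha hε0 hε1 hγ0 hγa hγb hγc e1 hS hgen hW
    (by rw [hker]; exact hg) hncov rfl hWs (fun A hA hc => hK G A hA hc) (by linarith) e3 hw1 hU0
    (M := 2 * U0) le_rfl hw2 e4 hN hw3 e5
  linarith

lemma propA_mono {a b : ℝ} (h : b ≤ a) (ha : PropA a) : PropA b := by
  obtain ⟨K, hK⟩ := ha
  refine ⟨K, fun G _ _ S hS hc => ?_⟩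
  have h1 := hK G S hS hc
  have h2 : b * (S.card : ℝ) ^ 2 ≤ a * (S.card : ℝ) ^ 2 :=
    mul_le_mul_of_nonneg_right h (by positivity)
  linarith

lemma propA_base : PropA (1 / 1000) := by
  refine ⟨0, fun G _ _ S hS _ => ?_⟩
  have h1 := quad S.card G S hS rfl
  have h2 : ((S.card ^ 2 : ℕ) : ℝ) ≤ ((1000 * (SS S).card : ℕ) : ℝ) := by exact_mod_cast h1
  push_cast at h2
  linarith

/-- The asymptotic lower bound with every constant below `1/2`. -/
theorem propA_all {γ : ℝ} (hγ : γ < 1 / 2) : PropA γ := by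
  rcases le_or_gt γ 0 with h0 | h0
  · exact propA_mono (h0.trans (by norm_num)) propA_base
  have key : ∀ n : ℕ, PropA (min γ ((3 / 2) ^ n * (1 / 1000))) := by
    intro n
    induction n with
    | zero => exact propA_mono (by simp) propA_base
    | succ n ih =>
      have hpos : 0 < min γ ((3 / 2 : ℝ) ^ n * (1 / 1000)) := lt_min h0 (by positivity)
      refine propA_step hpos ih (lt_min h0 (by positivity))
        (lt_of_le_of_lt (min_le_left _ _) hγ) ?_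
      rcases le_total γ ((3 / 2 : ℝ) ^ n * (1 / 1000)) with h | h
      · rw [min_eq_left h]
        exact lt_of_le_of_lt (min_le_left _ _) (by linarith)
      · rw [min_eq_right h]
        refine lt_of_le_of_lt (min_le_right _ _) ?_
        rw [pow_succ]
        have : (0 : ℝ) < (3 / 2) ^ n := by positivity
        linarith
  obtain ⟨n, hn⟩ := pow_unbounded_of_one_lt (1000 * γ) (by norm_num : (1 : ℝ) < 3 / 2)
  have := key n
  rw [min_eq_left (by linarith)] at this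
  exact this

end Pool.Agent.Lib.MP_0b126a_co
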