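import Pool.Agent.Lib.MP_0b126a_co.Basic

open Finset
open scoped Classical Pointwise

namespace Pool.Agent.Lib.MP_0b126a_co

variable {G : Type*} [AddCommGroup G]

/-- the finset of elements of a subgroup -/
noncomputable def HF [Fintype G] (H : AddSubgroup G) : Finset G := univ.filter (· ∈ H)

lemma mem_HF [Fintype G] {H : AddSubgroup G} {x : G} : x ∈ HF H ↔ x ∈ H := by
  simp [HF]

lemma shift_add (X A : Finset G) (t : G) :
    X.image (· + t) + A = (X + A).image (· + t) := by
  ext z
  simp only [mem_add, mem_image]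
  constructor
  · rintro ⟨_, ⟨x, hx, rfl⟩, a, ha, rfl⟩
    exact ⟨x + a, ⟨x, hx, a, ha, rfl⟩, by abel⟩
  · rintro ⟨_, ⟨x, hx, a, ha, rfl⟩, rfl⟩
    exact ⟨x + t, ⟨x, hx, rfl⟩, a, ha, by abel⟩

lemma card_le_card_add {X A : Finset G} (hA : A.Nonempty) : X.card ≤ (X + A).card :=
  card_le_card_add_right hA

/-- The isoperimetric minimum for a symmetric set is attained at a subgroup. -/
lemma mann [Fintype G] (A : Finset G) (hsym : ∀ a ∈ A, -a ∈ A) (hne : A.Nonempty) (c : ℕ)
    (X : Finset G) (hX : X.Nonempty) (hXA : X + A ≠ univ) (hc : (X + A).card < X.card + c) :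
    ∃ H : AddSubgroup G, HF H + A ≠ univ ∧ (HF H + A).card < (HF H).card + c := by
  set n := Fintype.card G with hn
  set P : Finset (Finset G) := univ.filter (fun X => X.Nonempty ∧ X + A ≠ univ) with hP
  set f : Finset G → ℕ := fun X => ((X + A).card - X.card) * (n + 1) + X.card with hf
  have hXP : X ∈ P := by simp [hP, hX, hXA]
  obtain ⟨X0, hX0P, hmin⟩ := P.exists_min_image f ⟨X, hXP⟩
  have hcard : ∀ Y : Finset G, Y.card ≤ n := fun Y => card_le_univ Y
  -- consequences of minimality
  have hk : ∀ Y : Finset G, Y.Nonempty → Y + A ≠ univ →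
      (X0 + A).card - X0.card ≤ (Y + A).card - Y.card := by
    intro Y hY hYA
    have h1 := hmin Y (by simp [hP, hY, hYA])
    by_contra hlt
    push Not at hlt
    have h2 : ((Y + A).card - Y.card + 1) * (n + 1) ≤ ((X0 + A).card - X0.card) * (n + 1) :=
      Nat.mul_le_mul_right _ hlt
    have h3 := hcard Y
    simp only [hf] at h1
    have h4 : ((Y + A).card - Y.card + 1) * (n + 1) =
      ((Y + A).card - Y.card) * (n + 1) + (n + 1) := by ring
    omega
  have hk2 : ∀ Y : Finset G, Y.Nonempty → Y + A ≠ univ →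
      (Y + A).card - Y.card ≤ (X0 + A).card - X0.card → X0.card ≤ Y.card := by
    intro Y hY hYA hle
    have h1 := hmin Y (by simp [hP, hY, hYA])
    have h2 := hk Y hY hYA
    have h3 : (Y + A).card - Y.card = (X0 + A).card - X0.card := le_antisymm hle h2
    simp only [hf, h3] at h1
    omega
  have hX0' : X0.Nonempty ∧ X0 + A ≠ univ := by simpa [hP] using hX0P
  obtain ⟨x0, hx0⟩ := hX0'.1
  set X1 := X0.image (· + -x0) with hX1
  have hX1c : X1.card = X0.card := card_shift _ _
  have hX1A : X1 + A = (X0 + A).image (· + -x0) := shift_add _ _ _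
  have hX1Ac : (X1 + A).card = (X0 + A).card := by rw [hX1A, card_shift]
  have h0 : (0 : G) ∈ X1 := mem_image.2 ⟨x0, hx0, by simp⟩
  set k := (X0 + A).card - X0.card with hkdef
  have hX0le : X0.card ≤ (X0 + A).card := card_le_card_add hne
  have hk1 : (X1 + A).card = X1.card + k := by omega
  have hX1u : X1 + A ≠ univ := by
    intro h
    apply hX0'.2
    apply (card_eq_iff_eq_univ _).1
    rw [← hX1Ac, h, card_univ]
  -- the complement
  set Z := (X1 + A)ᶜ with hZ
  have hZne : Z.Nonempty := by
    rw [nonempty_iff_ne_empty]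
    intro h
    apply hX1u
    rwa [hZ, compl_eq_empty_iff] at h
  have hZsub : Z + A ⊆ X1ᶜ := by
    intro y hy
    rw [mem_add] at hy
    obtain ⟨z, hz, a, ha, rfl⟩ := hy
    rw [mem_compl]
    intro h
    rw [hZ, mem_compl] at hz
    apply hz
    rw [mem_add]
    exact ⟨z + a, h, -a, hsym a ha, by abel⟩
  have hZu : Z + A ≠ univ := by
    intro h
    have : (0 : G) ∈ X1ᶜ := hZsub (by rw [h]; exact mem_univ _)
    rw [mem_compl] at this
    exact this h0
  have hZc : Z.card = n - (X1 + A).card := by rw [hZ, card_compl]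
  have hZAc : (Z + A).card ≤ n - X1.card := by
    have := card_le_card hZsub
    rwa [card_compl] at this
  have hX1Ale : (X1 + A).card ≤ n := hcard _
  have hX1le : X1.card ≤ n := hcard _
  have hsize : X1.card ≤ Z.card := by
    rw [hX1c]
    refine hk2 Z hZne hZu ?_
    omega
  have hn2 : X1.card + (X1 + A).card ≤ n := by omega
  -- closure under translation
  have hclosed : ∀ g ∈ X1, X1.image (· + g) = X1 := by
    intro g hg
    set Y := X1.image (· + g) with hY
    have hYc : Y.card = X1.card := card_shift _ _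
    have hYA : Y + A = (X1 + A).image (· + g) := shift_add _ _ _
    have hYAc : (Y + A).card = (X1 + A).card := by rw [hYA, card_shift]
    have hgI : g ∈ X1 ∩ Y := mem_inter.2 ⟨hg, mem_image.2 ⟨0, h0, by simp⟩⟩
    have hIne : (X1 ∩ Y).Nonempty := ⟨g, hgI⟩
    have hIA : (X1 ∩ Y) + A ⊆ (X1 + A) ∩ (Y + A) :=
      subset_inter (add_subset_add_right inter_subset_left)
        (add_subset_add_right inter_subset_right)
    have hUA : (X1 ∪ Y) + A = (X1 + A) ∪ (Y + A) := union_add
    have hsum1 : (X1 ∩ Y).card + (X1 ∪ Y).card = 2 * X1.card := by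
      rw [add_comm, card_union_add_card_inter, hYc]; ring
    have hsum2 : ((X1 ∩ Y) + A).card + ((X1 ∪ Y) + A).card ≤ 2 * (X1 + A).card := by
      have h1 := card_union_add_card_inter (X1 + A) (Y + A)
      have h2 := card_le_card hIA
      rw [hUA]
      omega
    have hIu : (X1 ∩ Y) + A ≠ univ := by
      intro h
      apply hX1u
      rw [eq_univ_iff_forall]
      intro z
      have : z ∈ (X1 ∩ Y) + A := by rw [h]; exact mem_univ _
      exact add_subset_add_right inter_subset_left this
    have hIk : (X1 ∩ Y).card + k ≤ ((X1 ∩ Y) + A).card := by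
      have h1 := hk _ hIne hIu
      have h2 : (X1 ∩ Y).card ≤ ((X1 ∩ Y) + A).card := card_le_card_add hne
      omega
    have hIpos : 0 < (X1 ∩ Y).card := card_pos.2 hIne
    have hUu : (X1 ∪ Y) + A ≠ univ := by
      intro h
      rw [h, card_univ] at hsum2
      omega
    have hUne : (X1 ∪ Y).Nonempty := ⟨g, mem_union_left _ hg⟩
    have hUk : (X1 ∪ Y).card + k ≤ ((X1 ∪ Y) + A).card := by
      have h1 := hk _ hUne hUu
      have h2 : (X1 ∪ Y).card ≤ ((X1 ∪ Y) + A).card := card_le_card_add hne
      omega
    have hle : X0.card ≤ (X1 ∩ Y).card := by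
      refine hk2 _ hIne hIu ?_
      omega
    have hIeq : X1 ∩ Y = X1 := eq_of_subset_of_card_le inter_subset_left (by omega)
    have hsub : X1 ⊆ Y := by
      rw [← hIeq]; exact inter_subset_right
    exact (eq_of_subset_of_card_le hsub (by omega)).symm
  -- the subgroup
  let H : AddSubgroup G :=
    { carrier := (X1 : Set G)
      zero_mem' := by exact_mod_cast h0
      add_mem' := by
        intro a b ha hb
        have ha' : a ∈ X1 := by exact_mod_cast ha
        have hb' : b ∈ X1 := by exact_mod_cast hb
        have h1 := hclosed b hb'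
        have : a + b ∈ X1.image (· + b) := mem_image.2 ⟨a, ha', rfl⟩
        rw [h1] at this
        exact_mod_cast this
      neg_mem' := by
        intro a ha
        have ha' : a ∈ X1 := by exact_mod_cast ha
        have h1 := hclosed a ha'
        have : (0 : G) ∈ X1.image (· + a) := by rw [h1]; exact h0
        obtain ⟨y, hy, hya⟩ := mem_image.1 this
        have : -a = y := by
          rw [eq_comm, ← add_eq_zero_iff_eq_neg]; exact hya
        rw [this]
        exact_mod_cast hy }
  have hH : HF H = X1 := by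
    ext x
    rw [mem_HF]
    exact Iff.rfl
  refine ⟨H, ?_, ?_⟩
  · rw [hH]; exact hX1u
  · rw [hH]
    have h1 := hk X hX hXA
    have h2 : X.card ≤ (X + A).card := card_le_card_add hne
    omega

end Pool.Agent.Lib.MP_0b126a_co
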