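import Pool.Agent.Lib.MP_0b126a_co.Bad

open Finset
open scoped Classical Pointwise

namespace Pool.Agent.Lib.MP_0b126a_co

variable {G Q : Type*} [AddCommGroup G] [AddCommGroup Q]

/-- a coset of `K` is covered by the subset sums of a small subset of `S` -/
def FP (S : Finset G) (w : ℕ) (K : AddSubgroup G) : Prop :=
  ∃ W ⊆ S, (∃ g, ∀ z ∈ K, g + z ∈ SS W) ∧ 2 ^ W.card ≤ Nat.card K ^ w

lemma FP_bot (S : Finset G) (w : ℕ) : FP S w ⊥ := by
  refine ⟨∅, empty_subset _, ⟨0, ?_⟩, ?_⟩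
  · intro z hz
    rw [AddSubgroup.mem_bot] at hz
    subst hz
    rw [add_zero]
    exact zero_mem_SS _
  · simp

lemma exists_max [Finite G] (S : Finset G) (w : ℕ) :
    ∃ K, FP S w K ∧ ∀ K', FP S w K' → Nat.card K' ≤ Nat.card K := by
  have : Finite (AddSubgroup G) := inferInstance
  obtain ⟨K, hK, hmax⟩ := Set.exists_max_image {K | FP S w K} (fun K => Nat.card K)
    (Set.toFinite _) ⟨⊥, FP_bot S w⟩
  exact ⟨K, hK, hmax⟩

lemma card_comap_eq [Finite G] [Finite Q] {φ : G →+ Q} (hφ : Function.Surjective φ)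
    (L : AddSubgroup Q) : Nat.card (L.comap φ) = Nat.card φ.ker * Nat.card L := by
  have h1 := (L.comap φ).card_mul_index
  have h2 := φ.ker.card_mul_index
  have h3 := L.card_mul_index
  have h4 : (L.comap φ).index = L.index := L.index_comap_of_surjective hφ
  have h5 : φ.ker.index = Nat.card Q := by
    rw [AddSubgroup.index_ker, AddMonoidHom.range_eq_top.2 hφ]
    simp
  have h6 : 0 < L.index := Nat.pos_of_ne_zero AddSubgroup.index_ne_zero_of_finite
  rw [h4] at h1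
  rw [h5] at h2
  apply Nat.eq_of_mul_eq_mul_right h6
  rw [h1, ← h2, ← h3]
  ring

lemma FP_ext [Finite G] [Finite Q] {φ : G →+ Q} (hφ : Function.Surjective φ) {S W : Finset G}
    {w : ℕ} (hW : W ⊆ S) {g : G} (hg : ∀ z ∈ φ.ker, g + z ∈ SS W)
    (hc : 2 ^ W.card ≤ Nat.card φ.ker ^ w) (hcov : Cov φ (S \ W) w) :
    ∃ K', FP S w K' ∧ Nat.card φ.ker < Nat.card K' := by
  obtain ⟨L, hL, W', hW', ⟨q, hq⟩, hc'⟩ := hcov
  obtain ⟨g', rfl⟩ := hφ q
  refine ⟨L.comap φ, ⟨W ∪ W', union_subset hW (hW'.trans sdiff_subset), ⟨g + g', ?_⟩, ?_⟩, ?_⟩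
  · intro z hz
    obtain ⟨B, hB, hBs⟩ := hq (φ z) hz
    have h1 : g' + z - ∑ x ∈ B, x ∈ φ.ker := by
      rw [AddMonoidHom.mem_ker, map_sub, map_add, hBs, sub_self]
    obtain ⟨C, hC, hCs⟩ := mem_SS.1 (hg _ h1)
    refine mem_SS.2 ⟨C ∪ B, union_subset_union hC hB, ?_⟩
    rw [sum_union (disjoint_of_subset_left hC (disjoint_of_subset_right (hB.trans hW')
      disjoint_sdiff)), hCs]
    abel
  · rw [card_comap_eq hφ, mul_pow]
    calc 2 ^ (W ∪ W').card ≤ 2 ^ (W.card + W'.card) :=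
          Nat.pow_le_pow_right (by norm_num) (card_union_le _ _)
      _ = 2 ^ W.card * 2 ^ W'.card := pow_add _ _ _
      _ ≤ _ := Nat.mul_le_mul hc hc'
  · rw [card_comap_eq hφ]
    have h1 : 0 < Nat.card φ.ker := Nat.card_pos
    have h2 : 1 < Nat.card L := by
      rw [AddSubgroup.one_lt_card_iff_ne_bot]
      exact hL
    calc Nat.card φ.ker = Nat.card φ.ker * 1 := (mul_one _).symm
      _ < Nat.card φ.ker * Nat.card L := Nat.mul_lt_mul_of_pos_left h2 h1

section flex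

variable [Fintype G] {φ : G →+ Q} {S W : Finset G} {g : G}

lemma flex_le (hW : W ⊆ S) (hg : ∀ z ∈ φ.ker, g + z ∈ SS W) {A : Finset G} (hA : A ⊆ S \ W) :
    (HF φ.ker).card * (Sq φ A).card ≤ (SS S).card := by
  have hex : ∀ q : Q, ∃ B : Finset G, q ∈ Sq φ A → B ⊆ A ∧ φ (∑ x ∈ B, x) = q := by
    intro q
    by_cases hq : q ∈ Sq φ A
    · obtain ⟨B, hB, hBs⟩ := mem_Sq.1 hq
      exact ⟨B, fun _ => ⟨hB, hBs⟩⟩
    · exact ⟨∅, fun h => absurd h hq⟩
  choose f hf using hex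
  rw [← card_product]
  refine card_le_card_of_injOn (fun p => g + p.1 + ∑ x ∈ f p.2, x) ?_ ?_
  · rintro ⟨κ, q⟩ hp
    simp only [coe_product, Set.mem_prod, mem_coe, mem_HF] at hp
    obtain ⟨hκ, hq⟩ := hp
    obtain ⟨hB, hBs⟩ := hf q hq
    obtain ⟨C, hC, hCs⟩ := mem_SS.1 (hg κ hκ)
    have : g + κ + ∑ x ∈ f q, x ∈ SS S := by
      refine mem_SS.2 ⟨C ∪ f q, union_subset (hC.trans hW) (hB.trans (hA.trans sdiff_subset)), ?_⟩
      rw [sum_union (disjoint_of_subset_left hC (disjoint_of_subset_right (hB.trans hA)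
        disjoint_sdiff)), hCs]
    exact_mod_cast this
  · rintro ⟨κ, q⟩ hp ⟨κ', q'⟩ hp' h
    simp only [coe_product, Set.mem_prod, mem_coe, mem_HF] at hp hp'
    simp only at h
    have h1 := congrArg φ h
    simp only [map_add] at h1
    rw [(hf q hp.2).2, (hf q' hp'.2).2, AddMonoidHom.mem_ker.1 hp.1,
      AddMonoidHom.mem_ker.1 hp'.1] at h1
    have hqq : q = q' := by
      simpa using h1
    subst hqq
    have h2 : κ = κ' := by simpa using h
    rw [h2]

lemma flex_compl [Fintype Q] (hS : ZSF S) (hW : W ⊆ S) (hg : ∀ z ∈ φ.ker, g + z ∈ SS W)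
    {A R : Finset G} (hA : A ⊆ S \ W) (hR : R ⊆ S \ W) (hd : Disjoint A R) :
    (Sq φ R).card ≤ Fintype.card Q - (Sq φ A).card + 1 := by
  have h1 : ((Sq φ R).erase 0).image (fun q => -q - φ g) ⊆ (Sq φ A)ᶜ := by
    intro z hz
    obtain ⟨r, hr, rfl⟩ := mem_image.1 hz
    rw [mem_erase] at hr
    obtain ⟨C, hC, rfl⟩ := mem_Sq.1 hr.2
    rw [mem_compl]
    intro hmem
    obtain ⟨B, hB, hBs⟩ := mem_Sq.1 hmem
    have hCne : C.Nonempty := by
      rw [nonempty_iff_ne_empty]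
      rintro rfl
      exact hr.1 (by simp)
    have h2 : -g - ∑ x ∈ B, x - ∑ x ∈ C, x ∈ φ.ker := by
      rw [AddMonoidHom.mem_ker, map_sub, map_sub, hBs, map_neg]
      abel
    obtain ⟨D, hD, hDs⟩ := mem_SS.1 (hg _ h2)
    have hBC : Disjoint B C := disjoint_of_subset_left hB (disjoint_of_subset_right hC hd)
    have hDBC : Disjoint D (B ∪ C) :=
      disjoint_of_subset_left hD (disjoint_of_subset_right
        (union_subset (hB.trans hA) (hC.trans hR)) disjoint_sdiff)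
    refine hS (D ∪ (B ∪ C)) (union_subset (hD.trans hW)
      (union_subset ((hB.trans hA).trans sdiff_subset) ((hC.trans hR).trans sdiff_subset)))
      ((hCne.mono subset_union_right).mono subset_union_right) ?_
    rw [sum_union hDBC, sum_union hBC, hDs]
    abel
  have h2 := card_le_card h1
  rw [card_image_of_injective _ (fun a b h => by
    have : -a = -b := sub_left_injective h
    exact neg_injective this), card_compl, card_erase_of_mem (zero_mem_Sq φ R)] at h2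
  omega

lemma flex_ker_ne (hS : ZSF S) (hW : W ⊆ S) (hg : ∀ z ∈ φ.ker, g + z ∈ SS W) {x : G}
    (hx : x ∈ S \ W) (hx0 : φ x = 0) : φ g ≠ 0 := by
  intro h0
  have h1 : -g - x ∈ φ.ker := by
    rw [AddMonoidHom.mem_ker, map_sub, map_neg, h0, hx0]; simp
  obtain ⟨D, hD, hDs⟩ := mem_SS.1 (hg _ h1)
  rw [mem_sdiff] at hx
  have hxD : x ∉ D := fun h => hx.2 (hD h)
  refine hS (insert x D) ?_ (insert_nonempty _ _) ?_
  · intro y hy
    rcases mem_insert.1 hy with rfl | hy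
    · exact hx.1
    · exact hW (hD hy)
  · rw [sum_insert hxD, hDs]
    abel

lemma flex_ker (hS : ZSF S) (hW : W ⊆ S) (hg : ∀ z ∈ φ.ker, g + z ∈ SS W) {A : Finset G}
    (hA : A ⊆ S \ W) (hA0 : ∀ x ∈ A, φ x = 0) (hne : A.Nonempty) :
    (HF φ.ker).card + (SS A).card ≤ (SS S).card ∧ (SS A).card ≤ (HF φ.ker).card := by
  obtain ⟨x, hx⟩ := hne
  have hφg := flex_ker_ne hS hW hg (hA hx) (hA0 x hx)
  have hSA : SS A ⊆ HF φ.ker := by
    intro z hz
    obtain ⟨B, hB, rfl⟩ := mem_SS.1 hz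
    rw [mem_HF]
    exact sum_mem fun y hy => by
      rw [AddMonoidHom.mem_ker]; exact hA0 y (hB hy)
  refine ⟨?_, card_le_card hSA⟩
  have h1 : (HF φ.ker).image (· + g) ⊆ SS S := by
    intro z hz
    obtain ⟨κ, hκ, rfl⟩ := mem_image.1 hz
    rw [mem_HF] at hκ
    rw [add_comm]
    exact Sq_mono hW (hg κ hκ)
  have h2 : SS A ⊆ SS S := Sq_mono (hA.trans sdiff_subset)
  have hd : Disjoint ((HF φ.ker).image (· + g)) (SS A) := by
    rw [disjoint_left]
    intro z hz hz'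
    obtain ⟨κ, hκ, rfl⟩ := mem_image.1 hz
    have h3 := hSA hz'
    rw [mem_HF, AddMonoidHom.mem_ker] at hκ h3
    rw [map_add, hκ, zero_add] at h3
    exact hφg h3
  have h3 := card_le_card (union_subset h1 h2)
  rw [card_union_of_disjoint hd, card_shift] at h3
  exact h3

end flex

end Pool.Agent.Lib.MP_0b126a_co
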