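import Pool.Agent.Lib.MP_0b126a_co.Sums

open Finset
open scoped Classical Pointwise

namespace Pool.Agent.Lib.MP_0b126a_co

universe u

lemma sub_image {H G : Type*} {f : H → G} {T : Finset H} {B : Finset G} (hB : B ⊆ T.image f) :
    (T.filter fun x => f x ∈ B).image f = B := by
  ext g
  simp only [mem_image, mem_filter]
  constructor
  · rintro ⟨x, ⟨_, hx⟩, rfl⟩
    exact hx
  · intro hg
    obtain ⟨x, hx, rfl⟩ := mem_image.1 (hB hg)
    exact ⟨x, ⟨hx, hg⟩, rfl⟩

lemma sum_image' {H G : Type*} [AddCommGroup H] [AddCommGroup G] (i : H →+ G)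
    (hi : Function.Injective i) (C : Finset H) : ∑ x ∈ C.image i, x = i (∑ x ∈ C, x) := by
  rw [sum_image (fun a _ b _ h => hi h), map_sum]

lemma SS_image {H G : Type*} [AddCommGroup H] [AddCommGroup G] (i : H →+ G)
    (hi : Function.Injective i) (T : Finset H) : SS (T.image i) = (SS T).image i := by
  ext g
  rw [mem_SS, mem_image]
  constructor
  · rintro ⟨B, hB, rfl⟩
    refine ⟨∑ x ∈ T.filter (fun x => i x ∈ B), x, mem_SS.2 ⟨_, filter_subset _ _, rfl⟩, ?_⟩
    rw [← sum_image' i hi, sub_image hB]
  · rintro ⟨h, hh, rfl⟩
    obtain ⟨C, hC, rfl⟩ := mem_SS.1 hh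
    exact ⟨C.image i, image_subset_image hC, sum_image' i hi C⟩

lemma ZSF.of_image {H G : Type*} [AddCommGroup H] [AddCommGroup G] (i : H →+ G)
    (hi : Function.Injective i) {T : Finset H} (h : ZSF (T.image i)) : ZSF T := by
  intro B hB hne hs
  refine h (B.image i) (image_subset_image hB) (hne.image _) ?_
  rw [sum_image' i hi, hs, map_zero]

lemma to_closure {G : Type u} [AddCommGroup G] [Fintype G] (S : Finset G) :
    ∃ (H : Type u) (_ : AddCommGroup H) (_ : Fintype H) (T : Finset H), T.card = S.card ∧
      (SS T).card = (SS S).card ∧ (ZSF S → ZSF T) ∧ AddSubgroup.closure (T : Set H) = ⊤ := by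
  let H : AddSubgroup G := AddSubgroup.closure (S : Set G)
  let T : Finset H := univ.filter fun h : H => (h : G) ∈ S
  have hi : Function.Injective H.subtype := Subtype.val_injective
  have hT : T.image H.subtype = S := by
    ext g
    simp only [T, mem_image, mem_filter, mem_univ, true_and]
    constructor
    · rintro ⟨x, hx, rfl⟩
      exact hx
    · intro hg
      exact ⟨⟨g, AddSubgroup.subset_closure (by exact_mod_cast hg)⟩, hg, rfl⟩
  refine ⟨H, inferInstance, inferInstance, T, ?_, ?_, ?_, ?_⟩
  · rw [← card_image_of_injective T hi, hT]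
  · rw [← card_image_of_injective (SS T) hi, ← SS_image H.subtype hi, hT]
  · intro hS
    rw [← hT] at hS
    exact hS.of_image _ hi
  · have h1 := AddSubgroup.closure_closure_coe_preimage (k := (S : Set G))
    have h2 : (T : Set H) = ((↑) : H → G) ⁻¹' (S : Set G) := by
      ext x
      simp [T]
    rw [h2]
    exact h1

/-- Either the number of sums of a zero-sum-free generating set doubles over that of a large part in
a subgroup, or all large parts generate. -/
lemma exists_notMem_of_closure {G : Type*} [AddCommGroup G] {S : Finset G}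
    (hS : AddSubgroup.closure (S : Set G) = ⊤) {L : AddSubgroup G} (hL : L ≠ ⊤) :
    ∃ x ∈ S, x ∉ L := by
  by_contra hcon
  push Not at hcon
  apply hL
  rw [← top_le_iff, ← hS, AddSubgroup.closure_le]
  intro a ha
  exact hcon a (by exact_mod_cast ha)

lemma closure_star {G : Type*} [AddCommGroup G] {A : Finset G}
    (hA : AddSubgroup.closure (A : Set G) = ⊤) : AddSubgroup.closure (star A : Set G) = ⊤ := by
  rw [← top_le_iff, ← hA]
  apply AddSubgroup.closure_mono
  intro x hx
  exact_mod_cast subset_star (by exact_mod_cast hx)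

/-- a quadratic lower bound -/
theorem quad (k : ℕ) : ∀ (G : Type u) [AddCommGroup G] [Fintype G] (S : Finset G),
    ZSF S → S.card = k → k ^ 2 ≤ 1000 * (SS S).card := by
  induction k using Nat.strong_induction_on with
  | _ k ih =>
    intro G _ _ S0 hS0 hk0
    obtain ⟨H, _, _, S, hSc, hSS, hz, hgen⟩ := to_closure S0
    have hS : ZSF S := hz hS0
    rw [← hSS]
    have hk : S.card = k := by omega
    clear hSS hz hSc hk0 hS0 S0
    -- small case
    rcases Nat.lt_or_ge k 1000 with hsmall | hbig
    · have h1 := hS.card_lt
      rw [hk] at h1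
      nlinarith
    -- concentrated case
    by_cases hconc : ∃ L : AddSubgroup H, L ≠ ⊤ ∧ k ^ 2 ≤ 2 * (S.filter (· ∈ L)).card ^ 2
    · obtain ⟨L, hL, hcard⟩ := hconc
      obtain ⟨x, hx, hxL⟩ := exists_notMem_of_closure hgen hL
      have hlt : (S.filter (· ∈ L)).card < k := by
        rw [← hk]
        refine card_lt_card ⟨filter_subset _ _, fun h => ?_⟩
        have := h hx
        rw [mem_filter] at this
        exact hxL this.2
      have h1 := ih _ hlt H (S.filter (· ∈ L)) (hS.mono (filter_subset _ _)) rfl
      have h2 := doubling (φ := AddMonoidHom.id H) (A := S) (A' := S.filter (· ∈ L)) L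
        (filter_subset _ _) (fun y hy => (mem_filter.1 hy).2) hx hxL
      have h3 : 2 * (SS (S.filter (· ∈ L))).card ≤ (SS S).card := h2
      omega
    push Not at hconc
    have hgenA : ∀ A ⊆ S, 3 * k ≤ 4 * A.card → AddSubgroup.closure (A : Set H) = ⊤ := by
      intro A hA hc
      by_contra hne
      have h1 := hconc _ hne
      have h2 : A.card ≤ (S.filter (· ∈ AddSubgroup.closure (A : Set H))).card := by
        refine card_le_card fun x hx => mem_filter.2 ⟨hA hx, ?_⟩
        exact AddSubgroup.subset_closure (by exact_mod_cast hx)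
      have h3 : A.card ^ 2 ≤ (S.filter (· ∈ AddSubgroup.closure (A : Set H))).card ^ 2 :=
        Nat.pow_le_pow_left h2 2
      nlinarith
    obtain ⟨R, hR, hRc⟩ := exists_subset_card_eq (s := S) (n := k / 10) (by omega)
    have hRss := (hS.mono hR).card_lt
    rw [hRc] at hRss
    set E := S \ R with hE
    have hEc : E.card = k - k / 10 := by
      rw [hE, card_sdiff_of_subset hR, hk, hRc]
    -- the growth
    have hstep : ∀ A ⊆ E, 3 * k ≤ 4 * A.card → ∃ x ∈ A, k / 50 ≤ lam (SS A) x := by
      intro A hA hc
      by_contra hcon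
      push Not at hcon
      have hAS : A ⊆ S := hA.trans (sdiff_subset)
      have hg := hgenA A hAS hc
      have hl : ∀ x ∈ star A, lam (SS A) x ≤ k / 50 - 1 :=
        lam_star fun x hx => by
          have := hcon x hx
          omega
      have h1 := label (A := star A) (B := SS A) (r := (star A).card / 2)
        (l := k / 50 - 1) star_nonempty (by
          have h2 : A.card ≤ (star A).card := card_le_card subset_star
          omega)
        (growth_weak star_neg (mem_star.2 (Or.inl rfl)) (closure_star hg)) hl
      have h2 : A.card ≤ (star A).card := card_le_card subset_star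
      have h3 := (hS.mono hAS).card_lt
      have h4 := hS.compl hAS hR (disjoint_of_subset_left hA sdiff_disjoint)
      have h5 : k / 10 ≤ bet (SS A) := by
        unfold bet
        rw [le_min_iff]
        omega
      set r := (star A).card / 2 with hr
      set b := bet (SS A)
      have h6 : k / 10 ≤ r := by omega
      -- r * b ≤ 2 (k/50 - 1)(b + r)
      have h7 : k / 50 - 1 + 1 = k / 50 := by omega
      have h8 : 4 * (k / 50) ≤ k / 10 := by omega
      rcases le_total b r with hbr | hbr
      · have h9 : r * b ≤ 2 * (k / 50 - 1) * (2 * r) := h1.trans (Nat.mul_le_mul_left _ (by omega))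
        have h10 : r * b ≤ r * (4 * (k / 50 - 1)) := by
          calc r * b ≤ _ := h9
            _ = _ := by ring
        have h11 := Nat.le_of_mul_le_mul_left h10 (by omega)
        omega
      · have h9 : r * b ≤ 2 * (k / 50 - 1) * (2 * b) := h1.trans (Nat.mul_le_mul_left _ (by omega))
        have h10 : b * r ≤ b * (4 * (k / 50 - 1)) := by
          calc b * r = r * b := mul_comm _ _
            _ ≤ _ := h9
            _ = _ := by ring
        have h11 := Nat.le_of_mul_le_mul_left h10 (by omega)
        omega
    have hdown : ∀ m, ∀ A ⊆ E, A.card = (3 * k + 3) / 4 + m → m * (k / 50) ≤ (SS A).card := by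
      intro m
      induction m with
      | zero => intro A _ _; simp
      | succ m ihm =>
        intro A hA hc
        obtain ⟨x, hx, hxl⟩ := hstep A hA (by omega)
        have h1 := ihm (A.erase x) ((erase_subset _ _).trans hA) (by
          rw [card_erase_of_mem hx, hc]; omega)
        have h2 : (SS (A.erase x)).card + lam (SS A) x ≤ (SS A).card :=
          drop (φ := AddMonoidHom.id H) hx
        calc (m + 1) * (k / 50) = m * (k / 50) + k / 50 := by ring
          _ ≤ _ := by omega
    have h1 := hdown (k - k / 10 - (3 * k + 3) / 4) E (Subset.refl _) (by omega)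
    have h2 : (SS E).card ≤ (SS S).card := card_le_card (Sq_mono sdiff_subset)
    have h3 : 14 * k ≤ 100 * (k - k / 10 - (3 * k + 3) / 4) := by omega
    have h4 : 19 * k ≤ 1000 * (k / 50) := by omega
    have h5 : (14 * k) * (19 * k) ≤
        (100 * (k - k / 10 - (3 * k + 3) / 4)) * (1000 * (k / 50)) := Nat.mul_le_mul h3 h4
    nlinarith

end Pool.Agent.Lib.MP_0b126a_co
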