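import Pool.Agent.Lib.MP_0b126a_co.Mann

open Finset
open scoped Classical Pointwise

namespace Pool.Agent.Lib.MP_0b126a_co

universe u

variable {G Q : Type*} [AddCommGroup G] [AddCommGroup Q]

/-- images under `φ` of the subset sums of `A` (the empty sum included) -/
noncomputable def Sq (φ : G →+ Q) (A : Finset G) : Finset Q :=
  A.powerset.image fun B => φ (∑ x ∈ B, x)

/-- subset sums of `A`, the empty sum included -/
noncomputable def SS (A : Finset G) : Finset G := Sq (AddMonoidHom.id G) A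

/-- zero-sum-free sets -/
def ZSF (A : Finset G) : Prop := ∀ B ⊆ A, B.Nonempty → ∑ x ∈ B, x ≠ 0

lemma mem_Sq {φ : G →+ Q} {A : Finset G} {q : Q} :
    q ∈ Sq φ A ↔ ∃ B ⊆ A, φ (∑ x ∈ B, x) = q := by
  simp [Sq]

lemma mem_SS {A : Finset G} {g : G} : g ∈ SS A ↔ ∃ B ⊆ A, ∑ x ∈ B, x = g := by
  simp [SS, Sq]

lemma zero_mem_Sq (φ : G →+ Q) (A : Finset G) : (0 : Q) ∈ Sq φ A :=
  mem_Sq.2 ⟨∅, empty_subset _, by simp⟩

lemma zero_mem_SS (A : Finset G) : (0 : G) ∈ SS A := zero_mem_Sq _ _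

lemma mem_Sq_of_mem {φ : G →+ Q} {A : Finset G} {x : G} (hx : x ∈ A) : φ x ∈ Sq φ A :=
  mem_Sq.2 ⟨{x}, by simpa using hx, by simp⟩

lemma Sq_mono {φ : G →+ Q} {A B : Finset G} (h : A ⊆ B) : Sq φ A ⊆ Sq φ B := by
  intro q hq
  obtain ⟨C, hC, rfl⟩ := mem_Sq.1 hq
  exact mem_Sq.2 ⟨C, hC.trans h, rfl⟩

lemma ZSF.mono {A B : Finset G} (hB : ZSF B) (h : A ⊆ B) : ZSF A :=
  fun C hC hne => hB C (hC.trans h) hne

lemma add_mem_Sq {φ : G →+ Q} {A B : Finset G} (h : Disjoint A B) {q r : Q}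
    (hq : q ∈ Sq φ A) (hr : r ∈ Sq φ B) : q + r ∈ Sq φ (A ∪ B) := by
  obtain ⟨C, hC, rfl⟩ := mem_Sq.1 hq
  obtain ⟨D, hD, rfl⟩ := mem_Sq.1 hr
  refine mem_Sq.2 ⟨C ∪ D, union_subset_union hC hD, ?_⟩
  rw [sum_union (disjoint_of_subset_left hC (disjoint_of_subset_right hD h)), map_add]

lemma Sq_insert {φ : G →+ Q} {A : Finset G} {x : G} (hx : x ∉ A) :
    Sq φ (insert x A) = Sq φ A ∪ (Sq φ A).image (· + φ x) := by
  ext q
  rw [mem_union, mem_image]
  constructor
  · intro hq
    obtain ⟨B, hB, rfl⟩ := mem_Sq.1 hq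
    by_cases hxB : x ∈ B
    · right
      refine ⟨φ (∑ y ∈ B.erase x, y), mem_Sq.2 ⟨B.erase x, ?_, rfl⟩, ?_⟩
      · intro y hy
        rw [mem_erase] at hy
        exact (mem_insert.1 (hB hy.2)).resolve_left hy.1
      · rw [← map_add, sum_erase_add _ _ hxB]
    · left
      refine mem_Sq.2 ⟨B, ?_, rfl⟩
      intro y hy
      refine (mem_insert.1 (hB hy)).resolve_left ?_
      rintro rfl
      exact hxB hy
  · rintro (hq | ⟨q, hq, rfl⟩)
    · exact Sq_mono (subset_insert _ _) hq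
    · obtain ⟨B, hB, rfl⟩ := mem_Sq.1 hq
      refine mem_Sq.2 ⟨insert x B, insert_subset_insert _ hB, ?_⟩
      rw [sum_insert (fun h => hx (hB h)), map_add, add_comm]

lemma drop {φ : G →+ Q} {A : Finset G} {x : G} (hx : x ∈ A) :
    (Sq φ (A.erase x)).card + lam (Sq φ A) (φ x) ≤ (Sq φ A).card := by
  have h1 : Sq φ A = Sq φ (A.erase x) ∪ (Sq φ (A.erase x)).image (· + φ x) := by
    rw [← Sq_insert (notMem_erase x A), insert_erase hx]
  have h2 : (Sq φ (A.erase x)).image (· + φ x) ⊆ (Sq φ A).image (· + φ x) ∩ Sq φ A := by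
    refine subset_inter (image_subset_image (Sq_mono (erase_subset _ _))) ?_
    rw [h1]
    exact subset_union_right
  have h3 := card_le_card h2
  rw [card_shift] at h3
  have h4 := lam_add_inter (Sq φ A) (φ x)
  omega

/-- doubling: if `A' ⊆ A`, `φ A' ⊆ L` and some `x ∈ A` has `φ x ∉ L`, then the number of sums
doubles -/
lemma doubling {φ : G →+ Q} {A A' : Finset G} (L : AddSubgroup Q) (hA' : A' ⊆ A)
    (hL : ∀ y ∈ A', φ y ∈ L) {x : G} (hx : x ∈ A) (hxL : φ x ∉ L) :
    2 * (Sq φ A').card ≤ (Sq φ A).card := by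
  have hxA' : x ∉ A' := fun h => hxL (hL x h)
  have h1 : Sq φ (insert x A') ⊆ Sq φ A := Sq_mono (insert_subset hx hA')
  have hS : ∀ q ∈ Sq φ A', q ∈ L := by
    intro q hq
    obtain ⟨B, hB, rfl⟩ := mem_Sq.1 hq
    rw [map_sum]
    exact sum_mem fun y hy => hL y (hB hy)
  have hdisj : Disjoint (Sq φ A') ((Sq φ A').image (· + φ x)) := by
    rw [disjoint_left]
    intro q hq hq'
    obtain ⟨r, hr, rfl⟩ := mem_image.1 hq'
    apply hxL
    have := L.sub_mem (hS _ hq) (hS _ hr)
    simpa using this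
  have h2 := card_le_card h1
  rw [Sq_insert hxA', card_union_of_disjoint hdisj, card_shift] at h2
  omega

/-- fibres -/
lemma card_SS_le [Fintype G] {φ : G →+ Q} {A : Finset G} :
    (SS A).card ≤ (HF φ.ker).card * (Sq φ A).card := by
  rw [mul_comm]
  have hmaps : ∀ g ∈ SS A, φ g ∈ Sq φ A := by
    intro g hg
    obtain ⟨B, hB, rfl⟩ := mem_SS.1 hg
    exact mem_Sq.2 ⟨B, hB, rfl⟩
  refine card_le_mul_card_image_of_maps_to hmaps (HF φ.ker).card ?_ |>.trans (le_of_eq (mul_comm _ _))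
  intro q _
  by_cases hne : ((SS A).filter fun g => φ g = q).Nonempty
  · obtain ⟨g0, hg0⟩ := hne
    rw [mem_filter] at hg0
    refine card_le_card_of_injOn (fun g => g - g0) ?_ ?_
    · intro g hg
      have hg' : g ∈ (SS A).filter fun g => φ g = q := by exact_mod_cast hg
      rw [mem_filter] at hg'
      have : g - g0 ∈ HF φ.ker := by
        rw [mem_HF, AddMonoidHom.mem_ker, map_sub, hg'.2, hg0.2, sub_self]
      exact_mod_cast this
    · intro a _ b _ h
      exact sub_left_injective h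
  · rw [not_nonempty_iff_eq_empty] at hne
    rw [hne]
    simp

lemma ZSF.card_lt [Fintype G] {A : Finset G} (h : ZSF A) : A.card + 1 ≤ (SS A).card := by
  have h0 : (0 : G) ∉ A := by
    intro h0
    exact h {0} (by simpa using h0) (by simp) (by simp)
  rw [← card_insert_of_notMem h0]
  refine card_le_card ?_
  intro x hx
  rcases mem_insert.1 hx with rfl | hx
  · exact zero_mem_Sq _ _
  · exact mem_SS.2 ⟨{x}, by simpa using hx, by simp⟩

/-- two disjoint parts of a zero-sum-free set -/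
lemma ZSF.compl [Fintype G] {S A R : Finset G} (h : ZSF S) (hA : A ⊆ S) (hR : R ⊆ S)
    (hd : Disjoint A R) : (SS R).card ≤ Fintype.card G - (SS A).card + 1 := by
  have h1 : ((SS R).erase 0).image Neg.neg ⊆ (SS A)ᶜ := by
    intro g hg
    obtain ⟨r, hr, rfl⟩ := mem_image.1 hg
    rw [mem_erase] at hr
    obtain ⟨C, hC, rfl⟩ := mem_SS.1 hr.2
    rw [mem_compl]
    intro hmem
    obtain ⟨B, hB, hBs⟩ := mem_SS.1 hmem
    have hCne : C.Nonempty := by
      rw [nonempty_iff_ne_empty]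
      rintro rfl
      exact hr.1 (by simp)
    refine h (B ∪ C) (union_subset (hB.trans hA) (hC.trans hR)) (hCne.mono subset_union_right) ?_
    rw [sum_union (disjoint_of_subset_left hB (disjoint_of_subset_right hC hd)), hBs]
    simp
  have h2 := card_le_card h1
  rw [card_image_of_injective _ neg_injective, card_compl,
    card_erase_of_mem (zero_mem_SS R)] at h2
  omega

/-- symmetrisation -/
noncomputable def star (T : Finset G) : Finset G := insert 0 (T ∪ T.image Neg.neg)

lemma mem_star {T : Finset G} {x : G} : x ∈ star T ↔ x = 0 ∨ x ∈ T ∨ -x ∈ T := by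
  simp only [star, mem_insert, mem_union, mem_image]
  constructor
  · rintro (h | h | ⟨a, ha, rfl⟩)
    · exact Or.inl h
    · exact Or.inr (Or.inl h)
    · exact Or.inr (Or.inr (by simpa using ha))
  · rintro (h | h | h)
    · exact Or.inl h
    · exact Or.inr (Or.inl h)
    · exact Or.inr (Or.inr ⟨-x, h, by simp⟩)

lemma star_neg {T : Finset G} : ∀ a ∈ star T, -a ∈ star T := by
  intro a ha
  rw [mem_star] at ha ⊢
  rcases ha with rfl | h | h
  · left; simp
  · right; right; simpa using h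
  · right; left; exact h

lemma star_nonempty {T : Finset G} : (star T).Nonempty := ⟨0, by simp [star]⟩

lemma lam_star {B T : Finset G} {l : ℕ} (h : ∀ x ∈ T, lam B x ≤ l) :
    ∀ x ∈ star T, lam B x ≤ l := by
  intro x hx
  rw [mem_star] at hx
  rcases hx with rfl | hx | hx
  · rw [lam_zero]; exact Nat.zero_le _
  · exact h x hx
  · rw [← lam_neg]; exact h _ hx

lemma subset_star {T : Finset G} : T ⊆ star T := fun _ hx => mem_star.2 (Or.inr (Or.inl hx))

/-- weak growth for generating symmetric sets -/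
lemma growth_weak [Fintype G] {A : Finset G} (hsym : ∀ a ∈ A, -a ∈ A) (h0 : (0 : G) ∈ A)
    (hgen : AddSubgroup.closure (A : Set G) = ⊤) (X : Finset G) (hX : X.Nonempty)
    (hXA : X + A ≠ univ) : X.card + A.card / 2 ≤ (X + A).card := by
  by_contra hlt
  push Not at hlt
  obtain ⟨H, hH1, hH2⟩ := mann A hsym ⟨0, h0⟩ (A.card / 2) X hX hXA hlt
  have hex : ∃ a ∈ A, a ∉ H := by
    by_contra hcon
    push Not at hcon
    have h1 : AddSubgroup.closure (A : Set G) ≤ H := by
      rw [AddSubgroup.closure_le]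
      intro a ha
      exact hcon a (by exact_mod_cast ha)
    rw [hgen, top_le_iff] at h1
    apply hH1
    rw [eq_univ_iff_forall]
    intro z
    exact mem_add.2 ⟨z, by rw [mem_HF, h1]; trivial, 0, h0, by simp⟩
  obtain ⟨a, ha, haH⟩ := hex
  have h1 : HF H ∪ (HF H).image (· + a) ⊆ HF H + A := by
    intro z hz
    rcases mem_union.1 hz with hz | hz
    · exact mem_add.2 ⟨z, hz, 0, h0, by simp⟩
    · obtain ⟨y, hy, rfl⟩ := mem_image.1 hz
      exact mem_add.2 ⟨y, hy, a, ha, rfl⟩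
  have hdisj : Disjoint (HF H) ((HF H).image (· + a)) := by
    rw [disjoint_left]
    intro z hz hz'
    obtain ⟨y, hy, rfl⟩ := mem_image.1 hz'
    rw [mem_HF] at hz hy
    apply haH
    have := H.sub_mem hz hy
    simpa using this
  have h2 := card_le_card h1
  rw [card_union_of_disjoint hdisj, card_shift] at h2
  have h3 : A ⊆ HF H + A := by
    intro z hz
    exact mem_add.2 ⟨0, by rw [mem_HF]; exact H.zero_mem, z, hz, by simp⟩
  have h4 := card_le_card h3
  omega

end Pool.Agent.Lib.MP_0b126a_co
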